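import Pool.Agent.R995.CK.Stm

set_option autoImplicit false

open MeasureTheory Set Filter Topology Metric
open scoped ContDiff Laplacian ENNReal

namespace Pool.Agent.R995.CK

theorem ball_intOn (n : ℕ) (a r : ℝ) (hn : 3 ≤ n) (ha : 0 < a + n) :
    IntegrableOn (fun x : E n => ‖x‖ ^ a) (ball 0 r) := by
  haveI : Nonempty (Fin n) := ⟨⟨0, by omega⟩⟩
  haveI : Nontrivial (E n) := by
    unfold E
    infer_instance
  rcases le_or_gt r 0 with hr | hr
  · rw [ball_eq_empty.2 hr]; exact integrableOn_empty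
  rw [integrableOn_fun_norm_addHaar (E := E n) volume (f := fun r => r ^ a)]
  have h1 : IntegrableOn (fun y : ℝ => y ^ (((n - 1 : ℕ) : ℝ) + a)) (Set.Ioo 0 r) := by
    have h2 : ((n - 1 : ℕ) : ℝ) = n - 1 := by
      rw [Nat.cast_sub (by omega)]; simp
    have := intervalIntegral.intervalIntegrable_rpow' (a := 0) (b := r)
      (r := ((n - 1 : ℕ) : ℝ) + a) (by rw [h2]; linarith)
    rw [intervalIntegrable_iff_integrableOn_Ioo_of_le hr.le] at this
    exact this
  refine h1.congr_fun (fun y hy => ?_) measurableSet_Ioo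
  have hd : Module.finrank ℝ (E n) = n := by simp [E]
  simp only [hd, smul_eq_mul]
  rw [Real.rpow_add hy.1, Real.rpow_natCast]

theorem t_BALL : S_BALL := by
  intro n a hn ha
  refine ⟨ENNReal.ofReal (∫ x in ball (0 : E n) 1, ‖x‖ ^ a), ENNReal.ofReal_ne_top, ?_⟩
  intro r hr
  have h1 := ofReal_integral_eq_lintegral_ofReal (ball_intOn n a r hn ha)
    (Eventually.of_forall fun x => by positivity)
  rw [← h1, ← ENNReal.ofReal_mul (integral_nonneg fun x => by positivity)]
  apply ENNReal.ofReal_le_ofReal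
  have h2 := Measure.setIntegral_comp_smul volume (fun x : E n => ‖x‖ ^ a) (ball (0 : E n) 1) hr.ne'
  rw [smul_unitBall_of_pos hr] at h2
  have hd : Module.finrank ℝ (E n) = n := by simp [E]
  rw [hd] at h2
  have h3 : ∫ x in ball (0 : E n) 1, ‖r • x‖ ^ a = r ^ a * ∫ x in ball (0 : E n) 1, ‖x‖ ^ a := by
    rw [← integral_const_mul]
    congr 1
    funext x
    rw [norm_smul, Real.norm_eq_abs, abs_of_pos hr, Real.mul_rpow hr.le (norm_nonneg _)]
  rw [h3, abs_of_pos (by positivity), smul_eq_mul] at h2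
  have hrn : (0 : ℝ) < r ^ n := by positivity
  have h4 : ∫ x in ball (0 : E n) r, ‖x‖ ^ a =
      (∫ x in ball (0 : E n) 1, ‖x‖ ^ a) * r ^ (a + n) := by
    rw [Real.rpow_add hr, Real.rpow_natCast]
    field_simp at h2
    linarith
  exact h4.le

end Pool.Agent.R995.CK
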