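import Pool.Agent.R995.CK.Stm

/-!
# Weighted integrals, the potential operator, density
-/

set_option autoImplicit false

open MeasureTheory Set Filter Topology Metric
open scoped ContDiff Laplacian ENNReal

namespace Pool.Agent.R995.CK

variable {n : ℕ}

theorem wI_sq (a : ℝ) (f : E n → ℝ) :
    wI a 2 f = ∫⁻ x, ENNReal.ofReal (‖x‖ ^ a * f x ^ 2) := by
  unfold wI
  congr 1
  ext x
  rw [Real.rpow_two, sq_abs]

theorem wI_en (a : ℝ) (f : E n → ℝ) :
    wI a 2 f = ∫⁻ x, ENNReal.ofReal (‖x‖ ^ a) * ‖f x‖ₑ ^ 2 := by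
  unfold wI
  congr 1
  ext x
  rw [ENNReal.ofReal_mul (by positivity), Real.rpow_two, ENNReal.ofReal_pow (abs_nonneg _),
    Real.enorm_eq_ofReal_abs]

theorem wI_congr {a q : ℝ} {f g : E n → ℝ} (h : f =ᵐ[volume] g) : wI a q f = wI a q g := by
  unfold wI
  apply lintegral_congr_ae
  filter_upwards [h] with x hx
  rw [hx]

theorem wI_neg (a : ℝ) (f : E n → ℝ) : wI a 2 (fun x => -f x) = wI a 2 f := by
  rw [wI_sq, wI_sq]
  simp

theorem wI_sub_comm (a : ℝ) (f g : E n → ℝ) :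
    wI a 2 (fun x => f x - g x) = wI a 2 (fun x => g x - f x) := by
  rw [← wI_neg]
  congr 1
  ext x
  ring

theorem wI_const_mul (a c : ℝ) (f : E n → ℝ) :
    wI a 2 (fun x => c * f x) = ENNReal.ofReal (c ^ 2) * wI a 2 f := by
  rw [wI_sq, wI_sq, ← lintegral_const_mul' _ _ ENNReal.ofReal_ne_top]
  congr 1
  ext x
  rw [← ENNReal.ofReal_mul (sq_nonneg c)]
  congr 1
  ring

theorem wI_add_le (a : ℝ) {f g : E n → ℝ} (hf : AEMeasurable f volume) :
    wI a 2 (fun x => f x + g x) ≤ 2 * wI a 2 f + 2 * wI a 2 g := by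
  rw [wI_sq, wI_sq, wI_sq, ← lintegral_const_mul' _ _ (by norm_num),
    ← lintegral_const_mul' _ _ (by norm_num), ← lintegral_add_left']
  · apply lintegral_mono
    intro x
    have hx : 0 ≤ ‖x‖ ^ a := by positivity
    have h2 : ∀ t : ℝ, (2 : ℝ≥0∞) * ENNReal.ofReal t = ENNReal.ofReal (2 * t) := by
      intro t
      rw [ENNReal.ofReal_mul (by norm_num)]
      simp
    simp only
    rw [h2, h2, ← ENNReal.ofReal_add (by positivity) (by positivity)]
    apply ENNReal.ofReal_le_ofReal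
    have : ‖x‖ ^ a * (f x + g x) ^ 2 ≤ ‖x‖ ^ a * (2 * f x ^ 2 + 2 * g x ^ 2) := by
      apply mul_le_mul_of_nonneg_left _ hx
      nlinarith [sq_nonneg (f x - g x)]
    linarith
  · apply AEMeasurable.const_mul
    apply AEMeasurable.ennreal_ofReal
    exact (Measurable.aemeasurable (by fun_prop)).mul (hf.pow_const 2)

theorem wI_sub_le (a : ℝ) {f g h : E n → ℝ} (hf : AEMeasurable f volume)
    (hg : AEMeasurable g volume) :
    wI a 2 (fun x => f x - h x) ≤ 2 * wI a 2 (fun x => f x - g x) +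
      2 * wI a 2 (fun x => g x - h x) := by
  have := wI_add_le a (f := fun x => f x - g x) (g := fun x => g x - h x) (hf.sub hg)
  simpa using this

/-- The potential operator. -/
noncomputable def T (f : E n → ℝ) (x : E n) : ℝ := ∫ y : E n, ‖x - y‖ ^ (2 - (n : ℝ)) * f y

/-- the potential of the absolute value -/
noncomputable def P (f : E n → ℝ) (x : E n) : ℝ≥0∞ :=
  ∫⁻ y : E n, ENNReal.ofReal (‖x - y‖ ^ (2 - (n : ℝ))) * ‖f y‖ₑ

theorem P_congr {f g : E n → ℝ} (h : f =ᵐ[volume] g) (x : E n) : P f x = P g x := by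
  unfold P
  apply lintegral_congr_ae
  filter_upwards [h] with y hy
  rw [hy]

theorem ker_meas : Measurable (fun p : E n × E n => ENNReal.ofReal (‖p.1 - p.2‖ ^ (2 - (n : ℝ)))) := by
  apply ENNReal.measurable_ofReal.comp
  exact Measurable.pow_const (by fun_prop) _

theorem P_meas {f : E n → ℝ} (hf : Measurable f) : Measurable (P f) := by
  unfold P
  apply Measurable.lintegral_prod_right'
    (f := fun p : E n × E n => ENNReal.ofReal (‖p.1 - p.2‖ ^ (2 - (n : ℝ))) * ‖f p.2‖ₑ)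
  exact ker_meas.mul (hf.comp measurable_snd).enorm

theorem schur_P (hS : S_SCHUR) (hn : 3 ≤ n) {α : ℝ} (h1 : 4 - (n : ℝ) < α) (h2 : α < n) :
    ∃ C : ℝ≥0∞, C ≠ ⊤ ∧ ∀ f : E n → ℝ, AEMeasurable f volume →
      ∫⁻ x : E n, ENNReal.ofReal (‖x‖ ^ (α - 4)) * P f x ^ 2 ≤ C * wI α 2 f := by
  obtain ⟨C, hC, h⟩ := hS n α hn h1 h2
  refine ⟨C, hC, fun f hf => ?_⟩
  have e1 : ∀ x, P f x = P (hf.mk f) x := fun x => P_congr hf.ae_eq_mk x
  have e2 : wI α 2 f = wI α 2 (hf.mk f) := wI_congr hf.ae_eq_mk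
  simp_rw [e1]
  rw [e2, wI_en]
  exact h (fun y => ‖hf.mk f y‖ₑ) hf.measurable_mk.enorm

theorem P_fin (hS : S_SCHUR) (hn : 3 ≤ n) {α : ℝ} (h1 : 4 - (n : ℝ) < α) (h2 : α < n)
    {f : E n → ℝ} (hf : AEMeasurable f volume) (hw : wI α 2 f ≠ ⊤) :
    ∀ᵐ x : E n, P f x < ⊤ := by
  obtain ⟨C, hC, h⟩ := schur_P hS hn h1 h2
  have e1 : ∀ x, P f x = P (hf.mk f) x := fun x => P_congr hf.ae_eq_mk x
  have h3 := h f hf
  simp_rw [e1] at h3 ⊢
  have h4 : ∫⁻ x : E n, ENNReal.ofReal (‖x‖ ^ (α - 4)) * P (hf.mk f) x ^ 2 ≠ ⊤ :=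
    ne_top_of_le_ne_top (ENNReal.mul_ne_top hC hw) h3
  have hm : Measurable (fun x : E n => ENNReal.ofReal (‖x‖ ^ (α - 4)) * P (hf.mk f) x ^ 2) := by
    apply Measurable.mul
    · exact ENNReal.measurable_ofReal.comp (Measurable.pow_const measurable_norm _)
    · exact (P_meas hf.measurable_mk).pow_const 2
  have : Nonempty (Fin n) := ⟨⟨0, by omega⟩⟩
  have h0 : ∀ᵐ x : E n, x ≠ 0 := by
    rw [ae_iff]; simp
  filter_upwards [ae_lt_top hm h4, h0] with x hx hx0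
  have hp : 0 < ‖x‖ := norm_pos_iff.2 hx0
  have hq : ENNReal.ofReal (‖x‖ ^ (α - 4)) ≠ 0 := by
    rw [Ne, ENNReal.ofReal_eq_zero, not_le]
    exact Real.rpow_pos_of_pos hp _
  by_contra hcon
  rw [not_lt, top_le_iff] at hcon
  rw [hcon] at hx
  simp [hq] at hx

theorem int_of_P {f : E n → ℝ} (hf : AEMeasurable f volume) {x : E n} (hx : P f x < ⊤) :
    Integrable (fun y : E n => ‖x - y‖ ^ (2 - (n : ℝ)) * f y) := by
  refine ⟨?_, ?_⟩
  · apply AEMeasurable.aestronglyMeasurable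
    apply AEMeasurable.mul _ hf
    apply Measurable.aemeasurable
    exact Measurable.pow_const (by fun_prop) _
  · rw [HasFiniteIntegral]
    refine lt_of_eq_of_lt ?_ hx
    unfold P
    congr 1
    ext y
    rw [enorm_mul, Real.enorm_eq_ofReal (by positivity)]

theorem T_sub_le (hS : S_SCHUR) (hn : 3 ≤ n) {α : ℝ} (h1 : 4 - (n : ℝ) < α) (h2 : α < n) :
    ∃ C : ℝ≥0∞, C ≠ ⊤ ∧ ∀ f g : E n → ℝ, AEMeasurable f volume → AEMeasurable g volume →
      wI α 2 f ≠ ⊤ → wI α 2 g ≠ ⊤ →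
      wI (α - 4) 2 (fun x => T f x - T g x) ≤ C * wI α 2 (fun x => f x - g x) := by
  obtain ⟨C, hC, h⟩ := schur_P hS hn h1 h2
  refine ⟨C, hC, fun f g hf hg hf2 hg2 => ?_⟩
  refine le_trans ?_ (h _ (hf.sub hg))
  rw [wI_en]
  apply lintegral_mono_ae
  filter_upwards [P_fin hS hn h1 h2 hf hf2, P_fin hS hn h1 h2 hg hg2] with x hx hx'
  apply mul_le_mul_right
  apply pow_le_pow_left' _ 2
  have i1 := int_of_P hf hx
  have i2 := int_of_P hg hx'
  have e : T f x - T g x = ∫ y : E n, ‖x - y‖ ^ (2 - (n : ℝ)) * (f y - g y) := by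
    unfold T
    rw [← integral_sub i1 i2]
    congr 1
    ext y
    ring
  rw [e]
  refine (enorm_integral_le_lintegral_enorm _).trans (le_of_eq ?_)
  unfold P
  congr 1
  ext y
  rw [enorm_mul, Real.enorm_eq_ofReal (by positivity)]

theorem lap_cont2 {φ : E n → ℝ} (h : ContDiff ℝ 2 φ) : Continuous (Δ φ) := by
  rw [InnerProductSpace.laplacian_eq_iteratedFDeriv_orthonormalBasis φ
    (EuclideanSpace.basisFun (Fin n) ℝ)]
  refine continuous_finsetSum _ fun i _ => ?_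
  have h2 : Continuous (iteratedFDeriv ℝ 2 φ) :=
    h.continuous_iteratedFDeriv (m := 2) le_rfl
  exact (ContinuousMultilinearMap.apply ℝ (fun _ : Fin 2 => E n) ℝ
    ![(EuclideanSpace.basisFun (Fin n) ℝ) i,
      (EuclideanSpace.basisFun (Fin n) ℝ) i]).continuous.comp h2

theorem lap_cpt2 {φ : E n → ℝ} (h : HasCompactSupport φ) : HasCompactSupport (Δ φ) := by
  have h2 : HasCompactSupport (iteratedFDeriv ℝ 2 φ) := h.iteratedFDeriv 2
  refine HasCompactSupport.intro h2.isCompact fun x hx => ?_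
  rw [InnerProductSpace.laplacian_eq_iteratedFDeriv_orthonormalBasis φ
    (EuclideanSpace.basisFun (Fin n) ℝ)]
  have : iteratedFDeriv ℝ 2 φ x = 0 := image_eq_zero_of_notMem_tsupport hx
  simp [this]

theorem wI_cpt (hB : S_BALL) (hn : 3 ≤ n) {α : ℝ} (h1 : 4 - (n : ℝ) < α) {f : E n → ℝ}
    (hf : Continuous f) (hc : HasCompactSupport f) : wI α 2 f ≠ ⊤ := by
  obtain ⟨C, hC, hb⟩ := hB n α hn (by linarith)
  obtain ⟨M, hM⟩ := hc.exists_bound_of_continuous hf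
  obtain ⟨r, hr0, hr⟩ : ∃ r : ℝ, 0 < r ∧ tsupport f ⊆ ball (0 : E n) r := by
    obtain ⟨r, hr⟩ := hc.isCompact.isBounded.subset_ball (0 : E n)
    exact ⟨max r 1, by positivity, hr.trans (ball_subset_ball (le_max_left _ _))⟩
  have hle : wI α 2 f ≤ ENNReal.ofReal (M ^ 2) * (C * ENNReal.ofReal (r ^ (α + n))) := by
    refine le_trans ?_ (mul_le_mul_right (hb r hr0) _)
    rw [wI_sq, ← lintegral_const_mul' _ _ ENNReal.ofReal_ne_top,
      ← lintegral_indicator measurableSet_ball]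
    apply lintegral_mono
    intro x
    by_cases hx : x ∈ ball (0 : E n) r
    · simp only
      rw [indicator_of_mem hx, ← ENNReal.ofReal_mul (sq_nonneg M)]
      apply ENNReal.ofReal_le_ofReal
      have h3 : f x ^ 2 ≤ M ^ 2 := by
        rw [← sq_abs]
        exact pow_le_pow_left₀ (abs_nonneg _) (hM x) 2
      have h4 : 0 ≤ ‖x‖ ^ α := by positivity
      nlinarith
    · have : f x = 0 := image_eq_zero_of_notMem_tsupport fun h => hx (hr h)
      simp [this]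
  exact ne_top_of_le_ne_top (ENNReal.mul_ne_top ENNReal.ofReal_ne_top
    (ENNReal.mul_ne_top hC ENNReal.ofReal_ne_top)) hle

theorem two_le_inf : (2 : WithTop ℕ∞) ≤ ((⊤ : ℕ∞) : WithTop ℕ∞) := by
  have : ((2 : ℕ∞) : WithTop ℕ∞) ≤ ((⊤ : ℕ∞) : WithTop ℕ∞) := WithTop.coe_le_coe.2 le_top
  exact this

/-- the weight -/
noncomputable def wt (n : ℕ) (α : ℝ) : Measure (E n) :=
  volume.withDensity (fun x => ENNReal.ofReal (‖x‖ ^ α))

theorem wt_dens (α : ℝ) : Measurable (fun x : E n => ENNReal.ofReal (‖x‖ ^ α)) :=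
  ENNReal.measurable_ofReal.comp (Measurable.pow_const measurable_norm _)

theorem wt_fin (hB : S_BALL) (hn : 3 ≤ n) {α : ℝ} (h1 : 4 - (n : ℝ) < α) :
    IsFiniteMeasureOnCompacts (wt n α) := by
  obtain ⟨C, hC, hb⟩ := hB n α hn (by linarith)
  refine ⟨fun {K} hK => ?_⟩
  obtain ⟨r, hr⟩ := hK.isBounded.subset_ball (0 : E n)
  have h3 : K ⊆ ball (0 : E n) (max r 1) := hr.trans (ball_subset_ball (le_max_left _ _))
  refine (measure_mono h3).trans_lt ?_
  rw [wt, withDensity_apply _ measurableSet_ball]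
  exact (hb (max r 1) (by positivity)).trans_lt
    (ENNReal.mul_lt_top hC.lt_top ENNReal.ofReal_lt_top)

theorem wt_lint (α : ℝ) {f : E n → ℝ} (hf : AEMeasurable f volume) :
    ∫⁻ x, ‖f x‖ₑ ^ (2 : ℝ) ∂(wt n α) = wI α 2 f := by
  rw [wt, lintegral_withDensity_eq_lintegral_mul₀ (wt_dens α).aemeasurable
    (hf.enorm.pow_const _), wI_en]
  apply lintegral_congr
  intro x
  simp only [Pi.mul_apply]
  rw [ENNReal.rpow_two]

theorem wt_norm (α : ℝ) {f : E n → ℝ} (hf : AEMeasurable f volume) :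
    eLpNorm f 2 (wt n α) ^ (2 : ℝ) = wI α 2 f := by
  rw [← wt_lint α hf, eLpNorm_eq_lintegral_rpow_enorm_toReal two_ne_zero ENNReal.ofNat_ne_top]
  simp only [ENNReal.toReal_ofNat]
  rw [← ENNReal.rpow_mul]
  norm_num

theorem wt_mem (α : ℝ) {g : E n → ℝ} (hg : AEMeasurable g volume) (hgw : wI α 2 g ≠ ⊤) :
    MemLp g 2 (wt n α) := by
  refine ⟨(hg.aestronglyMeasurable).mono_ac (withDensity_absolutelyContinuous _ _), ?_⟩
  by_contra hcon
  rw [not_lt, top_le_iff] at hcon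
  have := wt_norm α hg
  rw [hcon] at this
  apply hgw
  rw [← this]
  simp

theorem dens0 (hB : S_BALL) (hn : 3 ≤ n) {α : ℝ} (h1 : 4 - (n : ℝ) < α) {g : E n → ℝ}
    (hg : AEMeasurable g volume) (hgw : wI α 2 g ≠ ⊤) {δ : ℝ≥0∞} (hδ : 0 < δ) :
    ∃ h : E n → ℝ, ContDiff ℝ ∞ h ∧ HasCompactSupport h ∧ wI α 2 (fun x => h x - g x) ≤ δ := by
  have := wt_fin hB hn h1
  obtain ⟨s, hs0, hs⟩ : ∃ s : ℝ, 0 < s ∧ ENNReal.ofReal s ^ (2 : ℝ) ≤ δ := by
    by_cases hδt : δ = ⊤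
    · exact ⟨1, one_pos, by rw [hδt]; exact le_top⟩
    · refine ⟨Real.sqrt δ.toReal, Real.sqrt_pos.2 (ENNReal.toReal_pos hδ.ne' hδt), ?_⟩
      rw [ENNReal.rpow_two, ← ENNReal.ofReal_pow (Real.sqrt_nonneg _),
        Real.sq_sqrt ENNReal.toReal_nonneg, ENNReal.ofReal_toReal hδt]
  obtain ⟨h, hhc, hh, hhn⟩ := (wt_mem α hg hgw).exist_eLpNorm_sub_le ENNReal.ofNat_ne_top
    one_le_two hs0
  have hhm : AEMeasurable h volume := hh.continuous.measurable.aemeasurable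
  refine ⟨h, hh, hhc, ?_⟩
  rw [wI_sub_comm]
  have h3 := wt_norm α (hg.sub hhm)
  have h4 : wI α 2 (fun x => g x - h x) = eLpNorm (g - h) 2 (wt n α) ^ (2 : ℝ) := h3.symm
  rw [h4]
  exact (ENNReal.rpow_le_rpow hhn (by norm_num)).trans hs

/-- Laplacians of test functions are dense. -/
theorem dense (hB : S_BALL) (hO : S_OUT) (hI : S_INN) (hn : 3 ≤ n) {α : ℝ}
    (h1 : 4 - (n : ℝ) < α) (h2 : α < n) {g : E n → ℝ} (hg : AEMeasurable g volume)
    (hgw : wI α 2 g ≠ ⊤) {ε : ℝ≥0∞} (hε : 0 < ε) :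
    ∃ φ : E n → ℝ, Test φ ∧ wI α 2 (fun x => (Δ φ) x - g x) ≤ ε := by
  obtain ⟨δ, hδ0, hδ⟩ : ∃ δ : ℝ≥0∞, 0 < δ ∧ 10 * δ ≤ ε :=
    ⟨ε / 10, ENNReal.div_pos hε.ne' ENNReal.ofNat_ne_top, ENNReal.mul_div_le⟩
  obtain ⟨h, hh, hhc, e1⟩ := dens0 hB hn h1 hg hgw hδ0
  obtain ⟨ψ, hψ, hψc, e2⟩ := hO n α hn h1 h2 h hh hhc δ hδ0
  obtain ⟨φ, hφ, e3⟩ := hI n α hn h1 h2 ψ hψ hψc δ hδ0
  have hhm : AEMeasurable h volume := hh.continuous.measurable.aemeasurable
  have mφ : AEMeasurable (Δ φ) volume := (lap_cont2 hφ.smooth).measurable.aemeasurable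
  have mψ : AEMeasurable (Δ ψ) volume :=
    (lap_cont2 (hψ.of_le two_le_inf)).measurable.aemeasurable
  refine ⟨φ, hφ, ?_⟩
  have a1 := wI_sub_le α (f := Δ φ) (g := Δ ψ) (h := g) mφ mψ
  have a2 := wI_sub_le α (f := Δ ψ) (g := h) (h := g) mψ hhm
  have a3 : wI α 2 (fun x => (Δ ψ) x - g x) ≤ 2 * δ + 2 * δ :=
    a2.trans (add_le_add (mul_le_mul_right e2 2) (mul_le_mul_right e1 2))
  have a4 := a1.trans (add_le_add (mul_le_mul_right e3 2) (mul_le_mul_right a3 2))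
  refine a4.trans (le_trans (le_of_eq ?_) hδ)
  ring

end Pool.Agent.R995.CK
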