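import Pool.Agent.R995.CK.Stm
import Pool.Agent.Helper486.TP.NewtonLap

/-!
Project CK (MP_d4321b_an), piece GREEN: Green's representation for `C²` functions and the Poisson
equation. The first part follows `Pool/Agent/Helper486/TP/NewtonLap.lean`.
-/

set_option autoImplicit false

open MeasureTheory Set Filter Topology Metric
open scoped ContDiff Laplacian ENNReal InnerProductSpace

namespace Pool.Agent.R995.CK

namespace GREEN

open Pool.Agent.Helper486.TP (newton newton_toReal newton_measurable rpow_intOn newton_locInt fe fe_contDiff fe_lap int_parts kint subst_eq fe_le fe_tendsto)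

theorem nl_lap_eq2 {n : ℕ} {φ : E n → ℝ} (hφ : ContDiff ℝ 2 φ) (y : E n) :
    (Δ φ) y = ∑ i, fderiv ℝ (fun z => fderiv ℝ φ z (EuclideanSpace.basisFun (Fin n) ℝ i)) y
        (EuclideanSpace.basisFun (Fin n) ℝ i) := by
  rw [InnerProductSpace.laplacian_eq_iteratedFDeriv_orthonormalBasis φ
    (EuclideanSpace.basisFun (Fin n) ℝ)]
  apply Finset.sum_congr rfl
  intro i _
  rw [iteratedFDeriv_two_apply]
  have h1 : DifferentiableAt ℝ (fderiv ℝ φ) y :=
    ((hφ.fderiv_right (m := 1) (by norm_cast)).differentiable (by norm_num)) y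
  have h2 : fderiv ℝ (fun z => fderiv ℝ φ z (EuclideanSpace.basisFun (Fin n) ℝ i)) y
      = (ContinuousLinearMap.apply ℝ ℝ (EuclideanSpace.basisFun (Fin n) ℝ i)).comp
        (fderiv ℝ (fderiv ℝ φ) y) := by
    have := (ContinuousLinearMap.apply ℝ ℝ (EuclideanSpace.basisFun (Fin n) ℝ i)).hasFDerivAt.comp y
      h1.hasFDerivAt
    exact this.fderiv
  rw [h2]
  simp


theorem hD1 {n : ℕ} {ψ : E n → ℝ} {m : ℕ} (h : ContDiff ℝ (m + 1 : ℕ) ψ) (v : E n) :
    ContDiff ℝ m (fun z => fderiv ℝ ψ z v) :=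
  (h.fderiv_right (m := m) (by norm_cast)).clm_apply contDiff_const

theorem lap_cont2 {n : ℕ} {φ : E n → ℝ} (hφ : ContDiff ℝ 2 φ) : Continuous (Δ φ) := by
  have h : (Δ φ) = fun y => ∑ i, fderiv ℝ (fun z => fderiv ℝ φ z (EuclideanSpace.basisFun (Fin n) ℝ i)) y
        (EuclideanSpace.basisFun (Fin n) ℝ i) := by
    ext y; exact nl_lap_eq2 hφ y
  rw [h]
  exact continuous_finsetSum _ (fun i _ => (hD1 (m := 0) (hD1 (m := 1) (by exact_mod_cast hφ) _) _).continuous)

theorem lap_supp2 {n : ℕ} {φ : E n → ℝ} :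
    ∀ y, y ∉ tsupport φ → (Δ φ) y = 0 := by
  intro y hy
  have h : φ =ᶠ[𝓝 y] (fun _ => (0 : ℝ)) := by
    have : (tsupport φ)ᶜ ∈ 𝓝 y := (isClosed_tsupport φ).isOpen_compl.mem_nhds hy
    filter_upwards [this] with z hz
    exact image_eq_zero_of_notMem_tsupport hz
  have h2 := (InnerProductSpace.laplacian_congr_nhds h).eq_of_nhds
  rw [h2]
  simp


theorem green2 {n : ℕ} {ε : ℝ} (hε : 0 < ε) {φ : E n → ℝ} (hφ : ContDiff ℝ 2 φ)
    (hs : HasCompactSupport φ) (a : E n) :
    ∫ y, fe ε a y * (Δ φ) y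
      = ∫ y, -((n : ℝ) * (n - 2)) * (ε ^ 2 * (‖y - a‖ ^ 2 + ε ^ 2) ^ (-((n : ℝ) + 2) / 2)) * φ y := by
  have hD : ∀ {ψ : E n → ℝ}, ContDiff ℝ ∞ ψ → ∀ v : E n, ContDiff ℝ ∞ (fun z => fderiv ℝ ψ z v) := by
    intro ψ h v
    exact (h.fderiv_right (m := ∞) (by norm_cast)).clm_apply contDiff_const
  have hfe := fe_contDiff hε a (n := n)
  have hφ1 : ∀ v : E n, ContDiff ℝ 1 (fun z => fderiv ℝ φ z v) := fun v => by
    exact_mod_cast hD1 (m := 1) (by exact_mod_cast hφ) v
  have hφ0 : ∀ v w : E n, Continuous (fun z => fderiv ℝ (fun z => fderiv ℝ φ z v) z w) := fun v w =>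
    ((hφ1 v).continuous_fderiv (by norm_num)).clm_apply continuous_const
  simp_rw [← fe_lap hε a, nl_lap_eq2 hφ, Finset.mul_sum, Finset.sum_mul]
  rw [integral_finsetSum, integral_finsetSum]
  · apply Finset.sum_congr rfl
    intro i _
    set v := EuclideanSpace.basisFun (Fin n) ℝ i
    rw [int_parts (fe ε a) (fun z => fderiv ℝ φ z v) (hfe.of_le (by norm_cast)) (hφ1 v) (hs.fderiv_apply (𝕜 := ℝ) v) v]
    rw [int_parts (fun z => fderiv ℝ (fe ε a) z v) φ ((hD hfe v).of_le (by norm_cast)) (hφ.of_le (by norm_num)) hs v]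
    ring
  · intro i _
    refine Continuous.integrable_of_hasCompactSupport ?_ (hs.mul_left)
    exact (hD (hD hfe _) _).continuous.mul hφ.continuous
  · intro i _
    refine Continuous.integrable_of_hasCompactSupport ?_ (HasCompactSupport.mul_left ?_)
    · exact hfe.continuous.mul (hφ0 _ _)
    · exact (hs.fderiv_apply (𝕜 := ℝ) _).fderiv_apply (𝕜 := ℝ) _


theorem newton_laplacian2 {n : ℕ} (hn : 3 ≤ n) :
    ∃ c : ℝ, 0 < c ∧ ∀ φ : E n → ℝ, ContDiff ℝ 2 φ → HasCompactSupport φ → ∀ a : E n,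
      ∫ y, (newton a y).toReal * (Δ φ) y = -c * φ a := by
  have : Nonempty (Fin n) := ⟨⟨0, by omega⟩⟩
  have hn' : (3 : ℝ) ≤ n := by exact_mod_cast hn
  set k : E n → ℝ := fun w => ((n : ℝ) * (n - 2)) * ((1 : ℝ) + ‖w‖ ^ 2) ^ (-((n : ℝ) + 2) / 2) with hk
  have hkint : Integrable k := kint.const_mul _
  have hcoef : 0 < (n : ℝ) * (n - 2) := by apply mul_pos <;> linarith
  have hkpos : ∀ w, 0 < k w := fun w => by
    have h1 : 0 < ((1 : ℝ) + ‖w‖ ^ 2) ^ (-((n : ℝ) + 2) / 2) := Real.rpow_pos_of_pos (by positivity) _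
    exact mul_pos hcoef h1
  refine ⟨∫ w, k w, ?_, ?_⟩
  · rw [integral_pos_iff_support_of_nonneg (fun w => (hkpos w).le) hkint]
    have : Function.support k = univ := by
      ext w; simp [(hkpos w).ne']
    rw [this]
    simp
  · intro φ hφ hs a
    set e : ℕ → ℝ := fun m => 1 / ((m : ℝ) + 1) with he
    have hepos : ∀ m, 0 < e m := fun m => by positivity
    have helim : Tendsto e atTop (𝓝 0) := tendsto_one_div_add_atTop_nhds_zero_nat
    have hLc := lap_cont2 hφ
    have hLs := lap_supp2 (φ := φ)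
    obtain ⟨M, hM⟩ : ∃ M, ∀ y, ‖(Δ φ) y‖ ≤ M := by
      have hcs : HasCompactSupport (Δ φ) := HasCompactSupport.intro hs (fun y hy => hLs y hy)
      exact hcs.exists_bound_of_continuous hLc
    obtain ⟨M', hM'⟩ : ∃ M, ∀ y, ‖φ y‖ ≤ M := hs.exists_bound_of_continuous hφ.continuous
    have h0 : ∀ᵐ y : E n, y ≠ a := by
      rw [ae_iff]; simp
    -- left side
    have hL : Tendsto (fun m => ∫ y, fe (e m) a y * (Δ φ) y) atTop
        (𝓝 (∫ y, (newton a y).toReal * (Δ φ) y)) := by
      apply tendsto_integral_of_dominated_convergence (fun y => (newton a y).toReal * ‖(Δ φ) y‖)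
      · intro m
        exact ((fe_contDiff (hepos m) a).continuous.mul hLc).aestronglyMeasurable
      · have hK : IntegrableOn (fun y => (newton a y).toReal) (tsupport φ) := by
          obtain ⟨C, hC, hCa⟩ := newton_locInt hn (tsupport φ) hs
          apply integrable_toReal_of_lintegral_ne_top (newton_measurable a).aemeasurable
          exact ((hCa a).trans_lt (lt_top_iff_ne_top.2 hC)).ne
        have h1 : IntegrableOn (fun y => (newton a y).toReal * ‖(Δ φ) y‖) (tsupport φ) := by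
          apply Integrable.mul_bdd (c := M) hK
          · exact hLc.norm.aestronglyMeasurable
          · exact ae_of_all _ (fun y => by rw [norm_norm]; exact hM y)
        rw [← integrableOn_iff_integrable_of_support_subset (s := tsupport φ)]
        · exact h1
        · intro y hy
          by_contra h
          apply hy
          simp [hLs y h]
      · intro m
        filter_upwards [h0] with y hy
        rw [norm_mul]
        apply mul_le_mul_of_nonneg_right _ (norm_nonneg _)
        rw [Real.norm_of_nonneg]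
        · exact fe_le hn a y hy
        · unfold fe; positivity
      · filter_upwards [h0] with y hy
        exact (fe_tendsto hn a y hy e helim).mul_const _
    -- right side
    have hR : Tendsto (fun m => -∫ w : E n, k w * φ (a + e m • w)) atTop (𝓝 (-∫ w : E n, k w * φ a)) := by
      apply Tendsto.neg
      apply tendsto_integral_of_dominated_convergence (fun w => k w * M')
      · intro m
        apply AEStronglyMeasurable.mul hkint.1
        have : Continuous (fun w : E n => φ (a + e m • w)) := hφ.continuous.comp (by fun_prop)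
        exact this.aestronglyMeasurable
      · exact hkint.mul_const _
      · intro m
        refine ae_of_all _ (fun w => ?_)
        rw [norm_mul, Real.norm_of_nonneg (hkpos w).le]
        exact mul_le_mul_of_nonneg_left (hM' _) (hkpos w).le
      · refine ae_of_all _ (fun w => ?_)
        apply Tendsto.const_mul
        have h1 : Tendsto (fun m => a + e m • w) atTop (𝓝 (a + (0 : ℝ) • w)) :=
          tendsto_const_nhds.add (helim.smul_const w)
        rw [zero_smul, add_zero] at h1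
        exact (hφ.continuous.tendsto a).comp h1
    have heq : ∀ m, ∫ y, fe (e m) a y * (Δ φ) y = -∫ w : E n, k w * φ (a + e m • w) := by
      intro m
      rw [green2 (hepos m) hφ hs a, subst_eq (hepos m) φ a]
    have := tendsto_nhds_unique hL ((tendsto_congr heq).2 hR)
    rw [this, integral_mul_const]
    ring


/-- the Newtonian kernel -/
noncomputable def KK (n : ℕ) (z : E n) : ℝ := ‖z‖ ^ (2 - (n : ℝ))

theorem KK_loc {n : ℕ} (hn : 3 ≤ n) : LocallyIntegrable (KK n) (volume : Measure (E n)) := by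
  rw [locallyIntegrable_iff]
  intro k hk
  obtain ⟨r, hr⟩ := hk.isBounded.subset_ball 0
  have h1 := rpow_intOn hn (n := n) r
  have h2 : IntegrableOn (KK n) (ball 0 r) := by
    have e : KK n = fun y : E n => ‖y‖ ^ (-((n : ℝ) - 2)) := by
      funext y; unfold KK; congr 1; ring
    rw [e]; exact h1
  exact h2.mono_set hr

/-- the convolution with the kernel -/
noncomputable def cv {n : ℕ} (h : E n → ℝ) : E n → ℝ :=
  MeasureTheory.convolution (KK n) h (ContinuousLinearMap.mul ℝ ℝ) volume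

theorem cv_eq {n : ℕ} (h : E n → ℝ) (x : E n) :
    cv h x = ∫ y : E n, ‖x - y‖ ^ (2 - (n : ℝ)) * h y := by
  unfold cv
  rw [convolution_eq_swap]
  rfl

theorem cv_def {n : ℕ} (h : E n → ℝ) (x : E n) :
    cv h x = ∫ y : E n, KK n y * h (x - y) := rfl

theorem cv_contDiff {n : ℕ} (hn : 3 ≤ n) (h : E n → ℝ) (hh : ContDiff ℝ ∞ h)
    (hs : HasCompactSupport h) : ContDiff ℝ ∞ (cv h) :=
  hs.contDiff_convolution_right _ (KK_loc hn) hh

theorem cv_fderiv {n : ℕ} (hn : 3 ≤ n) (h : E n → ℝ) (hh : ContDiff ℝ ∞ h)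
    (hs : HasCompactSupport h) (x v : E n) :
    fderiv ℝ (cv h) x v = cv (fun a => fderiv ℝ h a v) x := by
  have h1 := hs.hasFDerivAt_convolution_right (ContinuousLinearMap.mul ℝ ℝ) (KK_loc hn)
    (hh.of_le (by norm_cast)) x
  have h2 : fderiv ℝ (cv h) x = _ := h1.fderiv
  rw [h2]
  exact convolution_precompR_apply (ContinuousLinearMap.mul ℝ ℝ) (KK_loc hn) (hs.fderiv (𝕜 := ℝ))
    (hh.continuous_fderiv (by norm_num)) x v

theorem cv_integrable {n : ℕ} (hn : 3 ≤ n) (h : E n → ℝ) (hh : Continuous h)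
    (hs : HasCompactSupport h) (x : E n) : Integrable (fun y => KK n y * h (x - y)) :=
  hs.convolutionExists_right (ContinuousLinearMap.mul ℝ ℝ) (KK_loc hn) hh x

theorem cv_lap {n : ℕ} (hn : 3 ≤ n) (h : E n → ℝ) (hh : ContDiff ℝ ∞ h)
    (hs : HasCompactSupport h) (x : E n) : (Δ (cv h)) x = cv (Δ h) x := by
  have hD : ∀ {ψ : E n → ℝ}, ContDiff ℝ ∞ ψ → ∀ v : E n, ContDiff ℝ ∞ (fun z => fderiv ℝ ψ z v) := by
    intro ψ h v
    exact (h.fderiv_right (m := ∞) (by norm_cast)).clm_apply contDiff_const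
  rw [nl_lap_eq2 ((cv_contDiff hn h hh hs).of_le (by norm_cast))]
  have h1 : ∀ i : Fin n, fderiv ℝ (fun z => fderiv ℝ (cv h) z (EuclideanSpace.basisFun (Fin n) ℝ i))
      x (EuclideanSpace.basisFun (Fin n) ℝ i) =
      cv (fun y => fderiv ℝ (fun z => fderiv ℝ h z (EuclideanSpace.basisFun (Fin n) ℝ i)) y
        (EuclideanSpace.basisFun (Fin n) ℝ i)) x := by
    intro i
    have e1 : (fun z => fderiv ℝ (cv h) z (EuclideanSpace.basisFun (Fin n) ℝ i)) =
        cv (fun a => fderiv ℝ h a (EuclideanSpace.basisFun (Fin n) ℝ i)) := by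
      funext z
      exact cv_fderiv hn h hh hs z _
    rw [e1]
    exact cv_fderiv hn _ (hD hh _) (hs.fderiv_apply (𝕜 := ℝ) _) x _
  simp_rw [h1, cv_def]
  rw [← integral_finsetSum]
  · apply integral_congr_ae
    refine ae_of_all _ fun y => ?_
    simp only
    rw [← Finset.mul_sum, ← nl_lap_eq2 (hh.of_le (by norm_cast))]
  · intro i _
    exact cv_integrable hn _ (hD (hD hh _) _).continuous
      ((hs.fderiv_apply (𝕜 := ℝ) _).fderiv_apply (𝕜 := ℝ) _) x

end GREEN

open GREEN in
theorem t_GREEN : S_GREEN := by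
  intro n hn
  obtain ⟨c, hc, H⟩ := newton_laplacian2 hn
  have hn0 : Nonempty (Fin n) := ⟨⟨0, by omega⟩⟩
  have H1 : ∀ φ : E n → ℝ, ContDiff ℝ 2 φ → HasCompactSupport φ → ∀ a : E n,
      ∫ y : E n, ‖a - y‖ ^ (2 - (n : ℝ)) * (Δ φ) y = -c * φ a := by
    intro φ hφ hs a
    rw [← H φ hφ hs a]
    have h0 : ∀ᵐ y : E n, y ≠ a := by
      rw [ae_iff]; simp
    apply integral_congr_ae
    filter_upwards [h0] with y hy
    rw [Pool.Agent.Helper486.TP.newton_toReal hn a y hy, norm_sub_rev]
    congr 2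
    ring
  refine ⟨c, hc, H1, ?_⟩
  intro h hh hs
  have e : (fun x : E n => ∫ y : E n, ‖x - y‖ ^ (2 - (n : ℝ)) * h y) = cv h := by
    funext x; rw [cv_eq]
  rw [e]
  refine ⟨cv_contDiff hn h hh hs, fun x => ?_⟩
  rw [cv_lap hn h hh hs, cv_eq, H1 h (hh.of_le (by norm_cast)) hs]

end Pool.Agent.R995.CK
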