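import Pool.Agent.R995.CK.Stm

set_option autoImplicit false

open MeasureTheory Set Filter Topology Metric
open scoped ContDiff Laplacian ENNReal

namespace Pool.Agent.R995.CK

namespace MULT

variable {n : ℕ}

/-- directional derivative -/
noncomputable def D (v : E n) (f : E n → ℝ) (x : E n) : ℝ := fderiv ℝ f x v

theorem D_smooth {v : E n} {f : E n → ℝ} (hf : ContDiff ℝ ∞ f) : ContDiff ℝ ∞ (D v f) :=
  (hf.fderiv_right (m := ∞) (by exact_mod_cast le_rfl)).clm_apply contDiff_const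

theorem dif {f : E n → ℝ} (hf : ContDiff ℝ ∞ f) : Differentiable ℝ f :=
  hf.differentiable (by simp)

theorem D_mul {v : E n} {f g : E n → ℝ} (hf : ContDiff ℝ ∞ f) (hg : ContDiff ℝ ∞ g) :
    D v (fun y => f y * g y) = fun y => f y * D v g y + g y * D v f y := by
  funext x
  unfold D
  rw [fderiv_fun_mul (dif hf x) (dif hg x)]
  simp

theorem D_add {v : E n} {f g : E n → ℝ} (hf : ContDiff ℝ ∞ f) (hg : ContDiff ℝ ∞ g) :
    D v (fun y => f y + g y) = fun y => D v f y + D v g y := by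
  funext x
  unfold D
  rw [fderiv_fun_add (dif hf x) (dif hg x)]
  simp

theorem D_comp {v : E n} (f : E n → ℝ) (c : ℝ) :
    D v (fun y => f (c • y)) = fun y => c * D v f (c • y) := by
  funext x
  unfold D
  rw [fderiv_comp_smul]
  simp

theorem D_cmul {v : E n} {f : E n → ℝ} (hf : ContDiff ℝ ∞ f) (c : ℝ) :
    D v (fun y => c * f y) = fun y => c * D v f y := by
  funext x
  unfold D
  rw [fderiv_const_mul (dif hf x)]
  simp

theorem lap_eq {f : E n → ℝ} (hf : ContDiff ℝ ∞ f) (x : E n) :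
    (Δ f) x = ∑ i : Fin n, D (EuclideanSpace.basisFun (Fin n) ℝ i) (D (EuclideanSpace.basisFun (Fin n) ℝ i) f) x := by
  rw [InnerProductSpace.laplacian_eq_iteratedFDeriv_orthonormalBasis f (EuclideanSpace.basisFun (Fin n) ℝ)]
  refine Finset.sum_congr rfl fun i _ => ?_
  rw [iteratedFDeriv_two_apply]
  have h1 : DifferentiableAt ℝ (fderiv ℝ f) x :=
    (hf.fderiv_right (m := ∞) (by exact_mod_cast le_rfl)).differentiable (by simp) x
  unfold D
  rw [fderiv_clm_apply h1 (differentiableAt_const _)]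
  simp

end MULT

open MULT in
theorem t_MULT : S_MULT := by
  intro n χ hχ hc
  have hb : ∀ i : Fin n, ∃ B : ℝ, ∀ x, ‖D (EuclideanSpace.basisFun (Fin n) ℝ i) χ x‖ ≤ B := fun i =>
    (hc.fderiv_apply ℝ _).exists_bound_of_continuous (D_smooth hχ).continuous
  have hb2 : ∀ i : Fin n, ∃ B : ℝ, ∀ x, ‖D (EuclideanSpace.basisFun (Fin n) ℝ i)
      (D (EuclideanSpace.basisFun (Fin n) ℝ i) χ) x‖ ≤ B := fun i =>
    ((hc.fderiv_apply ℝ _).fderiv_apply ℝ _).exists_bound_of_continuous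
      (D_smooth (D_smooth hχ)).continuous
  choose B hB using hb
  choose B2 hB2 using hb2
  refine ⟨∑ i, (2 * |B i| + |B2 i|), Finset.sum_nonneg fun i _ => by positivity, ?_⟩
  intro w hw R hR x
  set e := fun i : Fin n => EuclideanSpace.basisFun (Fin n) ℝ i with he
  set f : E n → ℝ := fun y => χ (R⁻¹ • y) with hf
  have hfs : ContDiff ℝ ∞ f := hχ.comp (contDiff_const_smul _)
  have hRi : 0 < R⁻¹ := inv_pos.2 hR
  rw [lap_eq (hfs.mul hw), lap_eq hw, Finset.mul_sum, ← Finset.sum_sub_distrib]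
  refine (Finset.abs_sum_le_sum_abs _ _).trans ?_
  rw [Finset.sum_mul]
  refine Finset.sum_le_sum fun i _ => ?_
  have h1 : D (e i) (D (e i) (fun y => f y * w y)) x =
      f x * D (e i) (D (e i) w) x + 2 * (D (e i) f x * D (e i) w x) + w x * D (e i) (D (e i) f) x := by
    rw [D_mul hfs hw, D_add (hfs.mul (D_smooth hw)) (hw.mul (D_smooth hfs)),
      D_mul hfs (D_smooth hw), D_mul hw (D_smooth hfs)]
    ring
  have h2 : D (e i) f x = R⁻¹ * D (e i) χ (R⁻¹ • x) := by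
    rw [hf, D_comp]
  have h3 : D (e i) (D (e i) f) x = R⁻¹ ^ 2 * D (e i) (D (e i) χ) (R⁻¹ • x) := by
    have hcomp : ContDiff ℝ ∞ (fun y : E n => D (e i) χ (R⁻¹ • y)) :=
      (D_smooth hχ).comp (contDiff_const_smul _)
    rw [hf, D_comp, D_cmul hcomp, D_comp]
    ring
  have h4 : D (e i) (D (e i) (fun y => f y * w y)) x - f x * D (e i) (D (e i) w) x =
      2 * (R⁻¹ * D (e i) χ (R⁻¹ • x) * D (e i) w x) +
        w x * (R⁻¹ ^ 2 * D (e i) (D (e i) χ) (R⁻¹ • x)) := by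
    rw [h1, h2, h3]; ring
  have hfx : f x = χ (R⁻¹ • x) := rfl
  show |D (e i) (D (e i) (fun y => f y * w y)) x - f x * D (e i) (D (e i) w) x| ≤ _
  rw [h4]
  have h5 : |D (e i) χ (R⁻¹ • x)| ≤ |B i| := by
    have := hB i (R⁻¹ • x)
    rw [Real.norm_eq_abs] at this
    exact this.trans (le_abs_self _)
  have h6 : |D (e i) (D (e i) χ) (R⁻¹ • x)| ≤ |B2 i| := by
    have := hB2 i (R⁻¹ • x)
    rw [Real.norm_eq_abs] at this
    exact this.trans (le_abs_self _)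
  have h7 : |D (e i) w x| ≤ ‖fderiv ℝ w x‖ := by
    have := (fderiv ℝ w x).le_opNorm (e i)
    have hn : ‖e i‖ = 1 := (EuclideanSpace.basisFun (Fin n) ℝ).orthonormal.1 i
    rw [hn, mul_one, Real.norm_eq_abs] at this
    exact this
  calc |2 * (R⁻¹ * D (e i) χ (R⁻¹ • x) * D (e i) w x) +
        w x * (R⁻¹ ^ 2 * D (e i) (D (e i) χ) (R⁻¹ • x))|
      ≤ |2 * (R⁻¹ * D (e i) χ (R⁻¹ • x) * D (e i) w x)| +
        |w x * (R⁻¹ ^ 2 * D (e i) (D (e i) χ) (R⁻¹ • x))| := abs_add_le _ _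
    _ = 2 * (R⁻¹ * |D (e i) χ (R⁻¹ • x)| * |D (e i) w x|) +
        |w x| * (R⁻¹ ^ 2 * |D (e i) (D (e i) χ) (R⁻¹ • x)|) := by
        simp only [abs_mul, abs_two, abs_of_pos hRi, abs_pow]
    _ ≤ 2 * (R⁻¹ * |B i| * ‖fderiv ℝ w x‖) + |w x| * (R⁻¹ ^ 2 * |B2 i|) := by gcongr
    _ ≤ (2 * |B i| + |B2 i|) * (R⁻¹ * ‖fderiv ℝ w x‖ + R⁻¹ ^ 2 * |w x|) := by
        have a1 : 0 ≤ R⁻¹ * ‖fderiv ℝ w x‖ := by positivity
        have a2 : 0 ≤ R⁻¹ ^ 2 * |w x| := by positivity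
        nlinarith [abs_nonneg (B i), abs_nonneg (B2 i), mul_nonneg (abs_nonneg (B i)) a2,
          mul_nonneg (abs_nonneg (B2 i)) a1]

end Pool.Agent.R995.CK
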