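import Pool.Agent.R995.CK.Stm
import Pool.Agent.R995.CK.MULT

set_option autoImplicit false

open MeasureTheory Set Filter Topology Metric
open scoped ContDiff Laplacian ENNReal

namespace Pool.Agent.R995.CK

namespace INN

/-- the bump function -/
noncomputable def bmp (n : ℕ) : ContDiffBump (0 : E n) := ⟨1, 2, one_pos, one_lt_two⟩

theorem c2 {n : ℕ} {f : E n → ℝ} (h : ContDiff ℝ ∞ f) : ContDiff ℝ 2 f := contDiff_infty.1 h 2

theorem bmp_smooth (n : ℕ) : ContDiff ℝ ∞ (bmp n) := (bmp n).contDiff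

theorem bmp_cpt (n : ℕ) : HasCompactSupport (bmp n) := (bmp n).hasCompactSupport

theorem bmp_one {n : ℕ} {r : ℝ} (hr : 0 < r) {x : E n} (hx : ‖x‖ < r) : bmp n (r⁻¹ • x) = 1 := by
  apply (bmp n).one_of_mem_closedBall
  rw [mem_closedBall_zero_iff, norm_smul, norm_inv, Real.norm_eq_abs, abs_of_pos hr]
  show r⁻¹ * ‖x‖ ≤ 1
  rw [inv_mul_le_iff₀ hr]
  linarith

theorem bmp_zero {n : ℕ} {r : ℝ} (hr : 0 < r) {x : E n} (hx : 2 * r ≤ ‖x‖) :
    bmp n (r⁻¹ • x) = 0 := by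
  apply (bmp n).zero_of_le_dist
  rw [dist_zero_right, norm_smul, norm_inv, Real.norm_eq_abs, abs_of_pos hr]
  show 2 ≤ r⁻¹ * ‖x‖
  rw [le_inv_mul_iff₀ hr]
  linarith

theorem bmp_abs {n : ℕ} (x : E n) : |bmp n x| ≤ 1 := by
  rw [abs_of_nonneg (bmp n).nonneg]
  exact (bmp n).le_one

theorem lap_cont {n : ℕ} {f : E n → ℝ} (hf : ContDiff ℝ ∞ f) : Continuous (Δ f) := by
  have : Δ f = fun x => ∑ i : Fin n, MULT.D (EuclideanSpace.basisFun (Fin n) ℝ i)
      (MULT.D (EuclideanSpace.basisFun (Fin n) ℝ i) f) x := funext (MULT.lap_eq hf)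
  rw [this]
  exact continuous_finsetSum _ fun i _ => (MULT.D_smooth (MULT.D_smooth hf)).continuous

theorem lap_zero_of_ev {n : ℕ} {f : E n → ℝ} {x : E n} (h : f =ᶠ[𝓝 x] fun _ => 0) : (Δ f) x = 0 := by
  have h2 := InnerProductSpace.laplacian_congr_nhds h
  have h3 := h2.eq_of_nhds
  rw [h3]
  simp

theorem lap_cpt {n : ℕ} {f : E n → ℝ} (hc : HasCompactSupport f) : HasCompactSupport (Δ f) := by
  refine HasCompactSupport.of_support_subset_isCompact hc (fun x hx => ?_)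
  by_contra hne
  rw [notMem_tsupport_iff_eventuallyEq] at hne
  exact hx (lap_zero_of_ev hne)

end INN

open INN in
theorem t_INN (hB : S_BALL) (hM : S_MULT) : S_INN := by
  intro n α hn hα1 hα2 ψ hψ hψc ε hε
  obtain ⟨C, hC, hCB⟩ := hB n α hn (by linarith)
  obtain ⟨A, hA, hAM⟩ := hM n (bmp n) (bmp_smooth n) (bmp_cpt n)
  obtain ⟨P0, hP0⟩ := hψc.exists_bound_of_continuous hψ.continuous
  obtain ⟨P1, hP1⟩ := (hψc.fderiv ℝ).exists_bound_of_continuous
    (hψ.fderiv_right (m := ∞) (by exact_mod_cast le_rfl)).continuous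
  obtain ⟨P2, hP2⟩ := (lap_cpt hψc).exists_bound_of_continuous (lap_cont hψ)
  have p0 : 0 ≤ P0 := (norm_nonneg _).trans (hP0 0)
  have p1 : 0 ≤ P1 := (norm_nonneg _).trans (hP1 0)
  have p2 : 0 ≤ P2 := (norm_nonneg _).trans (hP2 0)
  set K : ℝ := P2 + A * (P1 + P0) with hK
  have hK0 : 0 ≤ K := by positivity
  set p : ℝ := α + n - 4 with hp
  have hp0 : 0 < p := by rw [hp]; linarith
  -- the bound tends to zero
  have hlim : Tendsto (fun r : ℝ => C * ENNReal.ofReal (K ^ 2 * 3 ^ (α + n) * r ^ p)) (𝓝[>] 0) (𝓝 0) := by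
    have h1 : Tendsto (fun r : ℝ => r ^ p) (𝓝[>] 0) (𝓝 0) := by
      have := (Real.continuousAt_rpow_const 0 p (Or.inr hp0.le)).tendsto
      rw [Real.zero_rpow hp0.ne'] at this
      exact this.mono_left nhdsWithin_le_nhds
    have h2 := ENNReal.tendsto_ofReal (h1.const_mul (K ^ 2 * 3 ^ (α + n)))
    rw [mul_zero, ENNReal.ofReal_zero] at h2
    have h3 := ENNReal.Tendsto.const_mul (a := C) h2 (Or.inr hC)
    rwa [mul_zero] at h3
  have hev : ∀ᶠ r : ℝ in 𝓝[>] 0, r < 1 :=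
    nhdsWithin_le_nhds (eventually_lt_nhds one_pos)
  obtain ⟨r, ⟨hr1, hr2⟩, hr0⟩ := ((hev.and (hlim.eventually_lt_const hε)).and
    self_mem_nhdsWithin).exists
  have hr0 : 0 < r := hr0
  set g : E n → ℝ := fun x => bmp n (r⁻¹ • x) * ψ x with hg
  have hgs : ContDiff ℝ ∞ g := ((bmp_smooth n).comp (contDiff_const_smul _)).mul hψ
  refine ⟨fun x => ψ x - g x, ⟨?_, ?_, ?_⟩, ?_⟩
  · exact c2 (hψ.sub hgs)
  · have h1 : (fun x => ψ x - g x) = (fun x => 1 - bmp n (r⁻¹ • x)) * ψ := by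
      funext x
      simp only [hg, Pi.mul_apply]
      ring
    rw [h1]
    exact hψc.mul_left
  · rw [notMem_tsupport_iff_eventuallyEq]
    filter_upwards [ball_mem_nhds (0 : E n) hr0] with x hx
    rw [mem_ball_zero_iff] at hx
    simp only [hg, Pi.zero_apply]
    rw [bmp_one hr0 hx]
    ring
  · -- the estimate
    have hri : 1 ≤ r⁻¹ := (one_le_inv₀ hr0).2 hr1.le
    have hbd : ∀ x, |(Δ g) x| ≤ K * r⁻¹ ^ 2 := by
      intro x
      have h1 := hAM ψ hψ r hr0 x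
      have h2 : |bmp n (r⁻¹ • x) * (Δ ψ) x| ≤ P2 := by
        rw [abs_mul]
        calc |bmp n (r⁻¹ • x)| * |(Δ ψ) x| ≤ 1 * P2 := by
              gcongr
              · exact bmp_abs _
              · exact hP2 x
          _ = P2 := one_mul _
      have h3 : |(Δ g) x| ≤ |(Δ g) x - bmp n (r⁻¹ • x) * (Δ ψ) x| + |bmp n (r⁻¹ • x) * (Δ ψ) x| := by
        have := abs_add_le ((Δ g) x - bmp n (r⁻¹ • x) * (Δ ψ) x) (bmp n (r⁻¹ • x) * (Δ ψ) x)
        rwa [sub_add_cancel] at this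
      have h4 : r⁻¹ * ‖fderiv ℝ ψ x‖ + r⁻¹ ^ 2 * |ψ x| ≤ r⁻¹ ^ 2 * (P1 + P0) := by
        have a1 := hP1 x
        have a0 : |ψ x| ≤ P0 := hP0 x
        have : r⁻¹ * ‖fderiv ℝ ψ x‖ ≤ r⁻¹ ^ 2 * P1 := by
          have : r⁻¹ ≤ r⁻¹ ^ 2 := by nlinarith
          gcongr
        have : r⁻¹ ^ 2 * |ψ x| ≤ r⁻¹ ^ 2 * P0 := by gcongr
        linarith
      have h5 : A * (r⁻¹ * ‖fderiv ℝ ψ x‖ + r⁻¹ ^ 2 * |ψ x|) ≤ A * (r⁻¹ ^ 2 * (P1 + P0)) := by gcongr
      have h6 : P2 ≤ P2 * r⁻¹ ^ 2 := by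
        have : 1 ≤ r⁻¹ ^ 2 := by nlinarith
        nlinarith
      calc |(Δ g) x| ≤ A * (r⁻¹ ^ 2 * (P1 + P0)) + P2 * r⁻¹ ^ 2 := by linarith
        _ = K * r⁻¹ ^ 2 := by rw [hK]; ring
    have hz : ∀ x, x ∉ ball (0 : E n) (3 * r) → (Δ g) x = 0 := by
      intro x hx
      rw [mem_ball_zero_iff, not_lt] at hx
      apply lap_zero_of_ev
      have : {y : E n | 2 * r < ‖y‖} ∈ 𝓝 x :=
        (isOpen_lt continuous_const continuous_norm).mem_nhds (by
          show 2 * r < ‖x‖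
          linarith)
      filter_upwards [this] with y hy
      simp only [hg]
      rw [bmp_zero hr0 (le_of_lt hy), zero_mul]
    have hsub : ∀ x, (Δ (fun x => ψ x - g x)) x - (Δ ψ) x = - (Δ g) x := by
      intro x
      have h1 : ContDiffAt ℝ 2 ψ x := (c2 hψ).contDiffAt
      have h2 : ContDiffAt ℝ 2 g x := (c2 hgs).contDiffAt
      have h3 := h1.laplacian_sub h2
      have h4 : (Δ (fun x => ψ x - g x)) x = (Δ ψ) x - (Δ g) x := h3
      rw [h4]; ring
    have hle : wI α 2 (fun x => (Δ (fun x => ψ x - g x)) x - (Δ ψ) x) ≤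
        ENNReal.ofReal ((K * r⁻¹ ^ 2) ^ 2) * ∫⁻ x in ball (0 : E n) (3 * r), ENNReal.ofReal (‖x‖ ^ α) := by
      unfold wI
      rw [← lintegral_const_mul' _ _ ENNReal.ofReal_ne_top, ← lintegral_indicator measurableSet_ball]
      apply lintegral_mono
      intro x
      show ENNReal.ofReal (‖x‖ ^ α * |(Δ (fun x => ψ x - g x)) x - (Δ ψ) x| ^ (2 : ℝ)) ≤ _
      rw [hsub x, abs_neg]
      by_cases hx : x ∈ ball (0 : E n) (3 * r)
      · rw [indicator_of_mem hx, ← ENNReal.ofReal_mul (by positivity)]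
        apply ENNReal.ofReal_le_ofReal
        have h1 : |(Δ g) x| ^ (2 : ℝ) = |(Δ g) x| ^ 2 := by
          rw [← Real.rpow_natCast]; norm_num
        rw [h1, mul_comm]
        have := hbd x
        gcongr
      · rw [hz x hx]
        simp
    refine hle.trans ?_
    have h3r : 0 < 3 * r := by positivity
    calc ENNReal.ofReal ((K * r⁻¹ ^ 2) ^ 2) * ∫⁻ x in ball (0 : E n) (3 * r), ENNReal.ofReal (‖x‖ ^ α)
        ≤ ENNReal.ofReal ((K * r⁻¹ ^ 2) ^ 2) * (C * ENNReal.ofReal ((3 * r) ^ (α + n))) := by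
          gcongr
          exact hCB (3 * r) h3r
      _ = C * (ENNReal.ofReal ((K * r⁻¹ ^ 2) ^ 2) * ENNReal.ofReal ((3 * r) ^ (α + n))) := by ring
      _ = C * ENNReal.ofReal (K ^ 2 * 3 ^ (α + n) * r ^ p) := by
          rw [← ENNReal.ofReal_mul (by positivity)]
          congr 2
          rw [Real.mul_rpow (by norm_num) hr0.le, hp, Real.rpow_sub hr0]
          have : r ^ (4 : ℝ) = r ^ 4 := by rw [← Real.rpow_natCast]; norm_num
          rw [this]
          field_simp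
      _ ≤ ε := hr2.le

end Pool.Agent.R995.CK
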