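import Pool.Agent.R995.CK.Den

/-!
# Positivity of the extremals
-/

set_option autoImplicit false

open MeasureTheory Set Filter Topology Metric
open scoped ContDiff Laplacian ENNReal

namespace Pool.Agent.R995.CK

/-- `u` belongs to the completion `N²(α)` of the test functions for the norm
`(∫ |x|^α |Δu|²)^(1/2)`, and `f` is its Laplacian: some test functions `φ_k` satisfy
`Δφ_k → f` in `L²(|x|^α dx)` and `φ_k → u` in `L²(|x|^(α-4) dx)`. -/
structure InN {n : ℕ} (α : ℝ) (u f : E n → ℝ) : Prop where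
  meas_u : AEMeasurable u volume
  meas_f : AEMeasurable f volume
  approx : ∃ φ : ℕ → E n → ℝ, (∀ k, Test (φ k)) ∧
    Tendsto (fun k => wI α 2 (fun x => (Δ (φ k)) x - f x)) atTop (𝓝 0) ∧
    Tendsto (fun k => wI (α - 4) 2 (fun x => φ k x - u x)) atTop (𝓝 0)

/-- the exponent `β = n - q (n - 4 + α) / 2` -/
noncomputable def beta (n : ℕ) (α q : ℝ) : ℝ := n - q * ((n - 4 + α) / 2)

/-- the constant `S_q(α)`: the infimum of the quotient over `N²(α) \ {0}` -/
noncomputable def Sq (n : ℕ) (α q : ℝ) : ℝ≥0∞ :=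
  ⨅ (v : E n → ℝ) (g : E n → ℝ) (_ : InN α v g) (_ : ¬ v =ᵐ[volume] 0),
    wI α 2 g / wI (-beta n α q) q v ^ (2 / q)

/-- `u ≠ 0` is an element of `N²(α)` which attains `S_q(α)`. -/
structure Extremal {n : ℕ} (α q : ℝ) (u : E n → ℝ) : Prop where
  ne : ¬ u =ᵐ[volume] 0
  attains : ∃ f : E n → ℝ, InN α u f ∧
    wI α 2 f = Sq n α q * wI (-beta n α q) q u ^ (2 / q)

variable {n : ℕ}

theorem ae_ne (hn : 3 ≤ n) : ∀ᵐ x : E n, x ≠ 0 := by
  have : Nonempty (Fin n) := ⟨⟨0, by omega⟩⟩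
  rw [ae_iff]; simp

theorem wI_zero (hn : 3 ≤ n) {a : ℝ} {f : E n → ℝ} (hf : AEMeasurable f volume)
    (h : wI a 2 f = 0) : f =ᵐ[volume] 0 := by
  rw [wI_sq, lintegral_eq_zero_iff'] at h
  · filter_upwards [h, ae_ne hn] with x hx hx0
    have hp : 0 < ‖x‖ ^ a := Real.rpow_pos_of_pos (norm_pos_iff.2 hx0) _
    simp only [Pi.zero_apply, ENNReal.ofReal_eq_zero] at hx ⊢
    have h3 : f x ^ 2 ≤ 0 := by
      by_contra hc
      rw [not_le] at hc
      exact absurd hx (not_le.2 (mul_pos hp hc))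
    exact pow_eq_zero_iff (two_ne_zero) |>.1 (le_antisymm h3 (sq_nonneg _))
  · apply AEMeasurable.ennreal_ofReal
    exact (Measurable.aemeasurable (by fun_prop)).mul (hf.pow_const 2)

theorem T_meas {f : E n → ℝ} (hf : AEMeasurable f volume) : AEMeasurable (T f) volume := by
  have h1 : T f = T (hf.mk f) := by
    ext x
    unfold T
    apply integral_congr_ae
    filter_upwards [hf.ae_eq_mk] with y hy
    rw [hy]
  rw [h1]
  have h2 : StronglyMeasurable (fun p : E n × E n => ‖p.1 - p.2‖ ^ (2 - (n : ℝ)) *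
      hf.mk f p.2) := by
    apply Measurable.stronglyMeasurable
    exact (Measurable.pow_const (by fun_prop) _).mul (hf.measurable_mk.comp measurable_snd)
  exact (h2.integral_prod_right' (ν := (volume : Measure (E n)))).measurable.aemeasurable

theorem InN.fin (hB : S_BALL) (hn : 3 ≤ n) {α : ℝ} (h1 : 4 - (n : ℝ) < α) {u f : E n → ℝ}
    (h : InN α u f) : wI α 2 f ≠ ⊤ := by
  obtain ⟨φ, hφ, t1, -⟩ := h.approx
  obtain ⟨k, hk⟩ := (t1.eventually (gt_mem_nhds (show (0 : ℝ≥0∞) < 1 from one_pos))).exists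
  have hm : AEMeasurable (Δ (φ k)) volume := (lap_cont2 (hφ k).smooth).measurable.aemeasurable
  have h2 := wI_add_le α (f := Δ (φ k)) (g := fun x => f x - (Δ (φ k)) x) hm
  have h3 : wI α 2 (fun x => (Δ (φ k)) x + (f x - (Δ (φ k)) x)) = wI α 2 f := by
    congr 1
    ext x
    ring
  rw [h3] at h2
  refine ne_top_of_le_ne_top ?_ h2
  rw [wI_sub_comm α f]
  exact ENNReal.add_ne_top.2
    ⟨ENNReal.mul_ne_top ENNReal.ofNat_ne_top (wI_cpt hB hn h1 (lap_cont2 (hφ k).smooth)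
      (lap_cpt2 (hφ k).cpt)), ENNReal.mul_ne_top ENNReal.ofNat_ne_top (hk.trans_le le_top).ne⟩

/-- Green's representation, for test functions. -/
def GR (n : ℕ) (c : ℝ) : Prop := ∀ φ : E n → ℝ, ContDiff ℝ 2 φ → HasCompactSupport φ →
  ∀ a : E n, ∫ y : E n, ‖a - y‖ ^ (2 - (n : ℝ)) * (Δ φ) y = -c * φ a

theorem test_eq {c : ℝ} (hc : 0 < c) (hG : GR n c) {φ : E n → ℝ} (hφ : Test φ) (x : E n) :
    φ x = -(1 / c) * T (Δ φ) x := by
  have := hG φ hφ.smooth hφ.cpt x
  unfold T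
  rw [this]
  field_simp

theorem diff_le (hS : S_SCHUR) (hB : S_BALL) (hn : 3 ≤ n) {α : ℝ} (h1 : 4 - (n : ℝ) < α)
    (h2 : α < n) {c : ℝ} (hc : 0 < c) (hG : GR n c) : ∃ C : ℝ≥0∞, C ≠ ⊤ ∧
    ∀ (φ f : E n → ℝ), Test φ → AEMeasurable f volume → wI α 2 f ≠ ⊤ →
      wI (α - 4) 2 (fun x => φ x - -(1 / c) * T f x) ≤ C * wI α 2 (fun x => (Δ φ) x - f x) := by
  obtain ⟨C, hC, h⟩ := T_sub_le hS hn h1 h2
  refine ⟨ENNReal.ofReal ((-(1 / c)) ^ 2) * C, ENNReal.mul_ne_top ENNReal.ofReal_ne_top hC,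
    fun φ f hφ hf hw => ?_⟩
  have e : (fun x => φ x - -(1 / c) * T f x) = fun x => -(1 / c) * (T (Δ φ) x - T f x) := by
    ext x
    rw [test_eq hc hG hφ x]
    ring
  have hm : AEMeasurable (Δ φ) volume := (lap_cont2 hφ.smooth).measurable.aemeasurable
  rw [e, wI_const_mul, mul_assoc]
  exact mul_le_mul_right (h _ _ hm hf (wI_cpt hB hn h1 (lap_cont2 hφ.smooth)
    (lap_cpt2 hφ.cpt)) hw) _

theorem InN.rep (hS : S_SCHUR) (hB : S_BALL) (hn : 3 ≤ n) {α : ℝ} (h1 : 4 - (n : ℝ) < α)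
    (h2 : α < n) {c : ℝ} (hc : 0 < c) (hG : GR n c) {u f : E n → ℝ} (h : InN α u f) :
    u =ᵐ[volume] fun x => -(1 / c) * T f x := by
  have hw := h.fin hB hn h1
  obtain ⟨C, hC, hd⟩ := diff_le hS hB hn h1 h2 hc hG
  obtain ⟨φ, hφ, t1, t2⟩ := h.approx
  have hTm : AEMeasurable (fun x => -(1 / c) * T f x) volume := (T_meas h.meas_f).const_mul _
  have hle : ∀ k, wI (α - 4) 2 (fun x => u x - -(1 / c) * T f x) ≤
      2 * wI (α - 4) 2 (fun x => φ k x - u x) +
        2 * (C * wI α 2 (fun x => (Δ (φ k)) x - f x)) := by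
    intro k
    have hm : AEMeasurable (φ k) volume := (hφ k).smooth.continuous.measurable.aemeasurable
    have a1 := wI_sub_le (α - 4) (f := u) (g := φ k) (h := fun x => -(1 / c) * T f x) h.meas_u hm
    refine a1.trans (add_le_add (le_of_eq ?_) (mul_le_mul_right (hd _ _ (hφ k) h.meas_f hw) 2))
    rw [wI_sub_comm]
  have hlim : Tendsto (fun k => 2 * wI (α - 4) 2 (fun x => φ k x - u x) +
        2 * (C * wI α 2 (fun x => (Δ (φ k)) x - f x))) atTop (𝓝 (2 * 0 + 2 * (C * 0))) := by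
    apply Tendsto.add
    · exact ENNReal.Tendsto.const_mul t2 (Or.inr ENNReal.ofNat_ne_top)
    · exact ENNReal.Tendsto.const_mul (ENNReal.Tendsto.const_mul t1 (Or.inr hC))
        (Or.inr ENNReal.ofNat_ne_top)
  have h0 : wI (α - 4) 2 (fun x => u x - -(1 / c) * T f x) = 0 := by
    have := ge_of_tendsto' hlim hle
    simpa using this
  have h3 := wI_zero hn (h.meas_u.sub hTm) h0
  filter_upwards [h3] with x hx
  simp only [Pi.sub_apply, Pi.zero_apply] at hx
  linarith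

theorem mem_T (hS : S_SCHUR) (hB : S_BALL) (hO : S_OUT) (hI : S_INN) (hn : 3 ≤ n) {α : ℝ}
    (h1 : 4 - (n : ℝ) < α) (h2 : α < n) {c : ℝ} (hc : 0 < c) (hG : GR n c) {g : E n → ℝ}
    (hg : AEMeasurable g volume) (hw : wI α 2 g ≠ ⊤) :
    InN α (fun x => -(1 / c) * T g x) g := by
  obtain ⟨C, hC, hd⟩ := diff_le hS hB hn h1 h2 hc hG
  have hex : ∀ k : ℕ, ∃ φ : E n → ℝ, Test φ ∧
      wI α 2 (fun x => (Δ φ) x - g x) ≤ ((k : ℝ≥0∞) + 1)⁻¹ := by
    intro k
    apply dense hB hO hI hn h1 h2 hg hw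
    rw [ENNReal.inv_pos]
    exact ENNReal.add_ne_top.2 ⟨ENNReal.natCast_ne_top k, ENNReal.one_ne_top⟩
  choose φ hφ hle using hex
  have hlim : Tendsto (fun k : ℕ => ((k : ℝ≥0∞) + 1)⁻¹) atTop (𝓝 0) := by
    have h3 := (tendsto_add_atTop_iff_nat (f := fun k : ℕ => ((k : ℝ≥0∞))⁻¹) 1).2
      ENNReal.tendsto_inv_nat_nhds_zero
    refine h3.congr fun k => ?_
    push_cast
    rfl
  have t1 : Tendsto (fun k => wI α 2 (fun x => (Δ (φ k)) x - g x)) atTop (𝓝 0) :=
    tendsto_of_tendsto_of_tendsto_of_le_of_le tendsto_const_nhds hlim (fun _ => bot_le) hle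
  refine ⟨(T_meas hg).const_mul _, hg, φ, hφ, t1, ?_⟩
  have t2 : Tendsto (fun k => C * wI α 2 (fun x => (Δ (φ k)) x - g x)) atTop (𝓝 (C * 0)) :=
    ENNReal.Tendsto.const_mul t1 (Or.inr hC)
  rw [mul_zero] at t2
  exact tendsto_of_tendsto_of_tendsto_of_le_of_le tendsto_const_nhds t2 (fun _ => bot_le)
    (fun k => hd _ _ (hφ k) hg hw)

theorem T_pos (hS : S_SCHUR) (hn : 3 ≤ n) {α : ℝ} (h1 : 4 - (n : ℝ) < α) (h2 : α < n)
    {g : E n → ℝ} (hg : AEMeasurable g volume) (hw : wI α 2 g ≠ ⊤) (h0 : ∀ x, 0 ≤ g x)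
    (hne : ¬ g =ᵐ[volume] 0) : ∀ᵐ x : E n, 0 < T g x := by
  have : Nonempty (Fin n) := ⟨⟨0, by omega⟩⟩
  filter_upwards [P_fin hS hn h1 h2 hg hw] with x hx
  unfold T
  rw [integral_pos_iff_support_of_nonneg (fun y => mul_nonneg (by positivity) (h0 y))
    (int_of_P hg hx)]
  by_contra hcon
  rw [not_lt, nonpos_iff_eq_zero] at hcon
  apply hne
  have hx0 : ∀ᵐ y : E n, y ≠ x := by
    rw [ae_iff]; simp
  have h3 : ∀ᵐ y : E n, y ∉ Function.support (fun y : E n => ‖x - y‖ ^ (2 - (n : ℝ)) * g y) := by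
    rw [ae_iff]
    simp only [not_not]
    exact hcon
  filter_upwards [hx0, h3] with y hy hy2
  rw [Function.notMem_support] at hy2
  have hp : 0 < ‖x - y‖ ^ (2 - (n : ℝ)) :=
    Real.rpow_pos_of_pos (norm_pos_iff.2 (sub_ne_zero.2 hy.symm)) _
  rcases mul_eq_zero.1 hy2 with h | h
  · exact absurd h hp.ne'
  · exact h

theorem T_add (hS : S_SCHUR) (hn : 3 ≤ n) {α : ℝ} (h1 : 4 - (n : ℝ) < α) (h2 : α < n)
    {f g : E n → ℝ} (hf : AEMeasurable f volume) (hg : AEMeasurable g volume)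
    (hw : wI α 2 f ≠ ⊤) (hw' : wI α 2 g ≠ ⊤) :
    ∀ᵐ x : E n, T (fun y => f y + g y) x = T f x + T g x := by
  filter_upwards [P_fin hS hn h1 h2 hf hw, P_fin hS hn h1 h2 hg hw'] with x hx hx'
  unfold T
  rw [← integral_add (int_of_P hf hx) (int_of_P hg hx')]
  congr 1
  ext y
  ring

theorem T_neg (f : E n → ℝ) (x : E n) : T (fun y => -f y) x = -T f x := by
  unfold T
  rw [← integral_neg]
  congr 1
  ext y
  ring

theorem T_zero {f : E n → ℝ} (h : f =ᵐ[volume] 0) (x : E n) : T f x = 0 := by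
  unfold T
  rw [integral_eq_zero_of_ae]
  filter_upwards [h] with y hy
  simp [hy]

/-- **Main theorem.** -/
theorem main (hS : S_SCHUR) (hB : S_BALL) (hGr : S_GREEN) (hO : S_OUT) (hI : S_INN)
    (hn : 3 ≤ n) {α q : ℝ} (h1 : 4 - (n : ℝ) < α) (h2 : α < n) (hq : 0 < q) {u : E n → ℝ}
    (hu : Extremal α q u) : (∀ᵐ x : E n, 0 < u x) ∨ (∀ᵐ x : E n, u x < 0) := by
  obtain ⟨c, hc, hG, -⟩ := hGr n hn
  replace hG : GR n c := hG
  obtain ⟨f, hN, hatt⟩ := hu.attains
  have hw := hN.fin hB hn h1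
  have hf := hN.meas_f
  have hrep := hN.rep hS hB hn h1 h2 hc hG
  have hc' : 0 < 1 / c := by positivity
  have hf0 : ¬ f =ᵐ[volume] 0 := by
    intro h0
    apply hu.ne
    filter_upwards [hrep] with x hx
    rw [hx, T_zero h0]
    simp
  have hfn : AEMeasurable (fun x => -f x) volume := hf.neg
  have hwn : wI α 2 (fun x => -f x) ≠ ⊤ := by rw [wI_neg]; exact hw
  have hfa : AEMeasurable (fun x => |f x|) volume := continuous_abs.measurable.comp_aemeasurable hf
  have hwa' : wI α 2 (fun x => |f x|) = wI α 2 f := by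
    rw [wI_sq, wI_sq]
    simp_rw [sq_abs]
  have hwa : wI α 2 (fun x => |f x|) ≠ ⊤ := by rw [hwa']; exact hw
  -- the one-sided cases
  by_cases hA : ∀ᵐ x : E n, 0 ≤ f x
  · right
    have e1 : (fun x => |f x|) =ᵐ[volume] f := by
      filter_upwards [hA] with x hx
      exact abs_of_nonneg hx
    have hne : ¬ (fun x => |f x|) =ᵐ[volume] 0 := fun h => hf0 (e1.symm.trans h)
    filter_upwards [hrep, T_pos hS hn h1 h2 hfa hwa (fun x => abs_nonneg _) hne] with x hx hx2
    have e2 : T (fun x => |f x|) x = T f x := by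
      unfold T
      apply integral_congr_ae
      filter_upwards [e1] with y hy
      rw [hy]
    rw [e2] at hx2
    rw [hx]
    nlinarith
  by_cases hA' : ∀ᵐ x : E n, f x ≤ 0
  · left
    have e1 : (fun x => |f x|) =ᵐ[volume] fun x => -f x := by
      filter_upwards [hA'] with x hx
      exact abs_of_nonpos hx
    have hne : ¬ (fun x => |f x|) =ᵐ[volume] 0 := by
      intro h
      apply hf0
      filter_upwards [h] with x hx
      simpa using hx
    filter_upwards [hrep, T_pos hS hn h1 h2 hfa hwa (fun x => abs_nonneg _) hne] with x hx hx2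
    have e2 : T (fun x => |f x|) x = -T f x := by
      rw [← T_neg]
      unfold T
      apply integral_congr_ae
      filter_upwards [e1] with y hy
      rw [hy]
    rw [e2] at hx2
    rw [hx]
    nlinarith
  -- the two-sided case is impossible
  exfalso
  have hne1 : ¬ (fun x => |f x| + f x) =ᵐ[volume] 0 := by
    intro h
    apply hA'
    filter_upwards [h] with x hx
    simp only [Pi.zero_apply] at hx
    have := abs_nonneg (f x)
    linarith
  have hne2 : ¬ (fun x => |f x| + -f x) =ᵐ[volume] 0 := by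
    intro h
    apply hA
    filter_upwards [h] with x hx
    simp only [Pi.zero_apply] at hx
    have := abs_nonneg (f x)
    linarith
  have hfin1 : wI α 2 (fun x => |f x| + f x) ≠ ⊤ :=
    ne_top_of_le_ne_top (ENNReal.add_ne_top.2 ⟨ENNReal.mul_ne_top ENNReal.ofNat_ne_top hwa,
      ENNReal.mul_ne_top ENNReal.ofNat_ne_top hw⟩) (wI_add_le α hfa)
  have hfin2 : wI α 2 (fun x => |f x| + -f x) ≠ ⊤ :=
    ne_top_of_le_ne_top (ENNReal.add_ne_top.2 ⟨ENNReal.mul_ne_top ENNReal.ofNat_ne_top hwa,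
      ENNReal.mul_ne_top ENNReal.ofNat_ne_top hwn⟩) (wI_add_le α hfa)
  have p1 := T_pos hS hn h1 h2 (hfa.add hf) hfin1
    (fun x => by have := neg_abs_le (f x); simp only [Pi.add_apply]; linarith) hne1
  have p2 := T_pos hS hn h1 h2 (hfa.add hfn) hfin2
    (fun x => by have := le_abs_self (f x); simp only [Pi.add_apply]; linarith) hne2
  have a1 := T_add hS hn h1 h2 hfa hf hwa hw
  have a2 := T_add hS hn h1 h2 hfa hfn hwa hwn
  -- the competitor
  set v : E n → ℝ := fun x => -(1 / c) * T (fun y => -|f y|) x with hv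
  have hvN : InN α v (fun x => -|f x|) := mem_T hS hB hO hI hn h1 h2 hc hG hfa.neg
    (by rw [wI_neg]; exact hwa)
  have hlt : ∀ᵐ x : E n, |u x| < |v x| := by
    filter_upwards [hrep, p1, p2, a1, a2] with x hx b1 b2 b3 b4
    have b1' : 0 < T (fun y => |f y| + f y) x := b1
    have b2' : 0 < T (fun y => |f y| + -f y) x := b2
    rw [b3] at b1'
    rw [b4, T_neg] at b2'
    have hvx : v x = 1 / c * T (fun y => |f y|) x := by
      rw [hv]
      simp only
      rw [T_neg]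
      ring
    rw [hvx, hx]
    have hT : 0 < T (fun y => |f y|) x := by linarith
    rw [abs_of_pos (mul_pos hc' hT), abs_lt]
    constructor <;> nlinarith
  have hv0 : ¬ v =ᵐ[volume] 0 := by
    intro h
    have : ∀ᵐ _ : E n, False := by
      filter_upwards [h, hlt] with x hx hx2
      rw [hx] at hx2
      simp only [Pi.zero_apply, abs_zero] at hx2
      exact absurd hx2 (not_lt.2 (abs_nonneg _))
    rw [eventually_false_iff_eq_bot, ae_eq_bot] at this
    have h3 : (volume : Measure (E n)) ≠ 0 := NeZero.ne _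
    exact h3 this
  set Bu := wI (-beta n α q) q u with hBu
  set Bv := wI (-beta n α q) q v with hBv
  have hq2 : 0 < 2 / q := by positivity
  have hle : Sq n α q * Bv ^ (2 / q) ≤ wI α 2 f := by
    have h3 : Sq n α q ≤ wI α 2 (fun x => -|f x|) / Bv ^ (2 / q) :=
      iInf_le_of_le v (iInf_le_of_le (fun x => -|f x|) (iInf_le_of_le hvN (iInf_le _ hv0)))
    have h4 : wI α 2 (fun x => -|f x|) = wI α 2 f := by
      rw [wI_neg, hwa']
    rw [h4] at h3
    exact ENNReal.mul_le_of_le_div h3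
  have hA0 : wI α 2 f ≠ 0 := fun h => hf0 (wI_zero hn hf h)
  have hS0 : Sq n α q ≠ 0 := by
    intro h
    rw [h, zero_mul] at hatt
    exact hA0 hatt
  have hB0 : Bu ^ (2 / q) ≠ 0 := by
    intro h
    rw [h, mul_zero] at hatt
    exact hA0 hatt
  have hBt : Bu ^ (2 / q) ≠ ⊤ := by
    intro h
    rw [h, ENNReal.mul_top hS0] at hatt
    exact hw hatt
  have hSt : Sq n α q ≠ ⊤ := by
    intro h
    rw [h, ENNReal.top_mul hB0] at hatt
    exact hw hatt
  have hBu' : Bu ≠ ⊤ := by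
    intro h
    rw [h, ENNReal.top_rpow_of_pos hq2] at hBt
    exact hBt rfl
  rw [hatt] at hle
  have h5 : Bv ^ (2 / q) ≤ Bu ^ (2 / q) := (ENNReal.mul_le_mul_iff_right hS0 hSt).1 hle
  have h6 : Bv ≤ Bu := (ENNReal.rpow_le_rpow_iff hq2).1 h5
  have h7 : Bu < Bv := by
    apply lintegral_strict_mono
    · exact NeZero.ne _
    · apply AEMeasurable.ennreal_ofReal
      apply AEMeasurable.mul
      · exact (Measurable.pow_const measurable_norm _).aemeasurable
      · exact (continuous_abs.measurable.comp_aemeasurable hvN.meas_u).pow_const _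
    · exact hBu'
    · filter_upwards [hlt, ae_ne hn] with x hx hx0
      have hp : 0 < ‖x‖ ^ (-beta n α q) := Real.rpow_pos_of_pos (norm_pos_iff.2 hx0) _
      have hlt2 : |u x| ^ q < |v x| ^ q := Real.rpow_lt_rpow (abs_nonneg _) hx hq
      have hvp : 0 < |v x| ^ q := lt_of_le_of_lt (Real.rpow_nonneg (abs_nonneg _) _) hlt2
      exact (ENNReal.ofReal_lt_ofReal_iff (mul_pos hp hvp)).2 (mul_lt_mul_of_pos_left hlt2 hp)
  exact absurd h6 (not_le.2 h7)

end Pool.Agent.R995.CK
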