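import Pool.Agent.R995.CK.Stm
import Pool.Agent.R995.CK.INN

set_option autoImplicit false

open MeasureTheory Set Filter Topology Metric
open scoped ContDiff Laplacian ENNReal

namespace Pool.Agent.R995.CK

namespace OUT

open INN

variable {n : ℕ}

/-- the potential -/
noncomputable def U (h : E n → ℝ) (x : E n) : ℝ := ∫ y : E n, ‖x - y‖ ^ (2 - (n : ℝ)) * h y

theorem pow_lip (hn : 3 ≤ n) {d a b : ℝ} (hd : 0 < d) (ha : d ≤ a) (hb : d ≤ b) :
    |a ^ (2 - (n : ℝ)) - b ^ (2 - (n : ℝ))| ≤ ((n : ℝ) - 2) * d ^ (1 - (n : ℝ)) * |a - b| := by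
  have hn' : (3 : ℝ) ≤ n := by exact_mod_cast hn
  have h := Convex.norm_image_sub_le_of_norm_hasDerivWithin_le (𝕜 := ℝ)
    (f := fun t : ℝ => t ^ (2 - (n : ℝ))) (f' := fun t => (2 - (n : ℝ)) * t ^ (2 - (n : ℝ) - 1))
    (s := Ici d) (C := ((n : ℝ) - 2) * d ^ (1 - (n : ℝ))) (x := b) (y := a)
    (fun t ht => by
      have ht0 : t ≠ 0 := (hd.trans_le ht).ne'
      exact (Real.hasDerivAt_rpow_const (Or.inl ht0)).hasDerivWithinAt)
    (fun t ht => by
      have ht0 : 0 < t := hd.trans_le ht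
      rw [Real.norm_eq_abs, abs_mul, abs_of_nonpos (by linarith : 2 - (n : ℝ) ≤ 0),
        abs_of_nonneg (by positivity)]
      have h1 : t ^ (2 - (n : ℝ) - 1) ≤ d ^ (2 - (n : ℝ) - 1) :=
        Real.rpow_le_rpow_of_nonpos hd ht (by linarith)
      have h2 : 2 - (n : ℝ) - 1 = 1 - n := by ring
      rw [h2] at h1 ⊢
      have h3 : 0 ≤ -(2 - (n : ℝ)) := by linarith
      calc -(2 - (n : ℝ)) * t ^ (1 - (n : ℝ)) ≤ -(2 - (n : ℝ)) * d ^ (1 - (n : ℝ)) := by gcongr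
        _ = ((n : ℝ) - 2) * d ^ (1 - (n : ℝ)) := by ring)
    (convex_Ici d) hb ha
  simpa using h

theorem int_abs {h : E n → ℝ} (hh : Continuous h) (hc : HasCompactSupport h) :
    Integrable (fun y => |h y|) := (hh.integrable_of_hasCompactSupport hc).abs

theorem dist_low {ρ : ℝ} {x y : E n} (hy : ‖y‖ < ρ) (hx : 2 * ρ ≤ ‖x‖) : ‖x‖ / 2 ≤ ‖x - y‖ := by
  have := norm_sub_norm_le x y
  linarith

theorem U_int (hn : 3 ≤ n) {h : E n → ℝ} (hh : Continuous h) (hc : HasCompactSupport h) {ρ : ℝ}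
    (hρ : 0 < ρ) (hs : ∀ y, h y ≠ 0 → ‖y‖ < ρ) {d : ℝ} (hd : 0 < d) {x : E n}
    (hx : ∀ y, ‖y‖ < ρ → d ≤ ‖x - y‖) :
    Integrable (fun y => ‖x - y‖ ^ (2 - (n : ℝ)) * h y) ∧
      ∀ y, ‖‖x - y‖ ^ (2 - (n : ℝ)) * h y‖ ≤ d ^ (2 - (n : ℝ)) * |h y| := by
  have hn' : (3 : ℝ) ≤ n := by exact_mod_cast hn
  have hb : ∀ y, ‖‖x - y‖ ^ (2 - (n : ℝ)) * h y‖ ≤ d ^ (2 - (n : ℝ)) * |h y| := by
    intro y
    rw [norm_mul, Real.norm_eq_abs, Real.norm_eq_abs, abs_of_nonneg (by positivity)]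
    by_cases h0 : h y = 0
    · simp [h0]
    · have := hx y (hs y h0)
      have h1 : ‖x - y‖ ^ (2 - (n : ℝ)) ≤ d ^ (2 - (n : ℝ)) :=
        Real.rpow_le_rpow_of_nonpos hd this (by linarith)
      gcongr
  refine ⟨((int_abs hh hc).const_mul _).mono' ?_ (Eventually.of_forall hb), hb⟩
  apply Measurable.aestronglyMeasurable
  exact ((by fun_prop : Measurable fun y : E n => ‖x - y‖).pow_const _).mul hh.measurable

theorem U_abs (hn : 3 ≤ n) {h : E n → ℝ} (hh : Continuous h) (hc : HasCompactSupport h) {ρ : ℝ}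
    (hρ : 0 < ρ) (hs : ∀ y, h y ≠ 0 → ‖y‖ < ρ) {x : E n} (hx : 2 * ρ ≤ ‖x‖) :
    |U h x| ≤ (‖x‖ / 2) ^ (2 - (n : ℝ)) * ∫ y, |h y| := by
  have hd : 0 < ‖x‖ / 2 := by linarith
  obtain ⟨h1, h2⟩ := U_int hn hh hc hρ hs hd (x := x) (fun y hy => dist_low hy hx)
  have := norm_integral_le_of_norm_le ((int_abs hh hc).const_mul _) (Eventually.of_forall h2)
  rw [integral_const_mul] at this
  exact this

theorem U_fd (hn : 3 ≤ n) {h : E n → ℝ} (hh : Continuous h) (hc : HasCompactSupport h) {ρ : ℝ}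
    (hρ : 0 < ρ) (hs : ∀ y, h y ≠ 0 → ‖y‖ < ρ) {x : E n} (hx : 4 * ρ ≤ ‖x‖) :
    ‖fderiv ℝ (U h) x‖ ≤ ((n : ℝ) - 2) * (‖x‖ / 2) ^ (1 - (n : ℝ)) * ∫ y, |h y| := by
  have hn' : (3 : ℝ) ≤ n := by exact_mod_cast hn
  have hd : 0 < ‖x‖ / 2 := by linarith
  have hI : 0 ≤ ∫ y, |h y| := integral_nonneg fun y => abs_nonneg _
  have hn2 : 0 ≤ (n : ℝ) - 2 := by linarith
  apply norm_fderiv_le_of_lip' ℝ (by positivity)
  filter_upwards [ball_mem_nhds x hρ] with x' hx'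
  rw [mem_ball, dist_eq_norm] at hx'
  have hlow : ∀ y, ‖y‖ < ρ → ‖x‖ / 2 ≤ ‖x - y‖ := fun y hy => dist_low hy (by linarith)
  have hlow' : ∀ y, ‖y‖ < ρ → ‖x‖ / 2 ≤ ‖x' - y‖ := by
    intro y hy
    have h1 := norm_sub_norm_le x' y
    have h2 := norm_sub_norm_le x x'
    rw [norm_sub_rev] at h2
    linarith
  obtain ⟨i1, -⟩ := U_int hn hh hc hρ hs hd hlow
  obtain ⟨i2, -⟩ := U_int hn hh hc hρ hs hd hlow'
  have hsub : U h x' - U h x =
      ∫ y, (‖x' - y‖ ^ (2 - (n : ℝ)) * h y - ‖x - y‖ ^ (2 - (n : ℝ)) * h y) :=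
    (integral_sub i2 i1).symm
  rw [hsub]
  have hb : ∀ y, ‖‖x' - y‖ ^ (2 - (n : ℝ)) * h y - ‖x - y‖ ^ (2 - (n : ℝ)) * h y‖ ≤
      (((n : ℝ) - 2) * (‖x‖ / 2) ^ (1 - (n : ℝ)) * ‖x' - x‖) * |h y| := by
    intro y
    rw [← sub_mul, norm_mul, Real.norm_eq_abs, Real.norm_eq_abs]
    by_cases h0 : h y = 0
    · simp [h0]
    · have hy := hs y h0
      have h1 := pow_lip hn hd (hlow' y hy) (hlow y hy)
      have h2 : |‖x' - y‖ - ‖x - y‖| ≤ ‖x' - x‖ := by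
        have := abs_norm_sub_norm_le (x' - y) (x - y)
        simpa using this
      have h3 : |‖x' - y‖ ^ (2 - (n : ℝ)) - ‖x - y‖ ^ (2 - (n : ℝ))| ≤
          ((n : ℝ) - 2) * (‖x‖ / 2) ^ (1 - (n : ℝ)) * ‖x' - x‖ :=
        h1.trans (by gcongr)
      gcongr
  have := norm_integral_le_of_norm_le ((int_abs hh hc).const_mul _) (Eventually.of_forall hb)
  rw [integral_const_mul] at this
  refine this.trans (le_of_eq ?_)
  ring

end OUT

open INN OUT in
theorem t_OUT (hB : S_BALL) (hG : S_GREEN) (hM : S_MULT) : S_OUT := by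
  intro n α hn hα1 hα2 h hh hhc ε hε
  have hn' : (3 : ℝ) ≤ n := by exact_mod_cast hn
  obtain ⟨C, hC, hCB⟩ := hB n α hn (by linarith)
  obtain ⟨A, hA, hAM⟩ := hM n (bmp n) (bmp_smooth n) (bmp_cpt n)
  obtain ⟨c, hc, -, hG2⟩ := hG n hn
  obtain ⟨hUs, hUl⟩ := hG2 h hh hhc
  obtain ⟨ρ, hρ, hsub⟩ := hhc.isCompact.isBounded.subset_ball_lt 0 (0 : E n)
  have hs : ∀ y, h y ≠ 0 → ‖y‖ < ρ := fun y hy => by
    have := hsub (subset_tsupport h hy)
    rwa [mem_ball_zero_iff] at this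
  set w : E n → ℝ := fun x => (-(1 / c)) * U h x with hw
  have hws : ContDiff ℝ ∞ w := contDiff_const.mul hUs
  have hwl : ∀ x, (Δ w) x = h x := by
    intro x
    have h1 : ContDiffAt ℝ 2 (U h) x := (c2 hUs).contDiffAt
    have h2 := InnerProductSpace.laplacian_smul (-(1 / c)) h1
    have h3 : (Δ w) x = (-(1 / c)) * (Δ (U h)) x := h2
    have h4 : (Δ (U h)) x = -c * h x := hUl x
    rw [h3, h4]
    field_simp
  set I : ℝ := ∫ y, |h y| with hI
  have hI0 : 0 ≤ I := integral_nonneg fun y => abs_nonneg _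
  set K0 : ℝ := 1 / c * ((1 / 2) ^ (2 - (n : ℝ)) * I) with hK0
  set K1 : ℝ := 1 / c * (((n : ℝ) - 2) * (1 / 2) ^ (1 - (n : ℝ)) * I) with hK1
  have hn2 : 0 ≤ (n : ℝ) - 2 := by linarith
  have hK00 : 0 ≤ K0 := by positivity
  have hK10 : 0 ≤ K1 := by positivity
  have hwabs : ∀ x, 4 * ρ ≤ ‖x‖ → |w x| ≤ K0 * ‖x‖ ^ (2 - (n : ℝ)) := by
    intro x hx
    have h1 := U_abs hn hh.continuous hhc hρ hs (x := x) (by linarith)
    rw [hw]
    show |(-(1 / c)) * U h x| ≤ _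
    rw [abs_mul, abs_neg, abs_of_pos (by positivity : 0 < 1 / c)]
    have h2 : (‖x‖ / 2) ^ (2 - (n : ℝ)) = ‖x‖ ^ (2 - (n : ℝ)) * (1 / 2) ^ (2 - (n : ℝ)) := by
      rw [div_eq_mul_one_div, Real.mul_rpow (norm_nonneg _) (by norm_num)]
    rw [h2] at h1
    calc 1 / c * |U h x| ≤ 1 / c * (‖x‖ ^ (2 - (n : ℝ)) * (1 / 2) ^ (2 - (n : ℝ)) * I) := by gcongr
      _ = K0 * ‖x‖ ^ (2 - (n : ℝ)) := by rw [hK0]; ring
  have hwfd : ∀ x, 4 * ρ ≤ ‖x‖ → ‖fderiv ℝ w x‖ ≤ K1 * ‖x‖ ^ (1 - (n : ℝ)) := by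
    intro x hx
    have h1 := U_fd hn hh.continuous hhc hρ hs (x := x) hx
    have h0 : fderiv ℝ w x = (-(1 / c)) • fderiv ℝ (U h) x :=
      fderiv_const_mul ((c2 hUs).differentiable (by norm_num) x) _
    rw [h0, norm_smul, norm_neg, Real.norm_eq_abs, abs_of_pos (by positivity : 0 < 1 / c)]
    have h2 : (‖x‖ / 2) ^ (1 - (n : ℝ)) = ‖x‖ ^ (1 - (n : ℝ)) * (1 / 2) ^ (1 - (n : ℝ)) := by
      rw [div_eq_mul_one_div, Real.mul_rpow (norm_nonneg _) (by norm_num)]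
    rw [h2] at h1
    calc 1 / c * ‖fderiv ℝ (U h) x‖
        ≤ 1 / c * (((n : ℝ) - 2) * (‖x‖ ^ (1 - (n : ℝ)) * (1 / 2) ^ (1 - (n : ℝ))) * I) := by gcongr
      _ = K1 * ‖x‖ ^ (1 - (n : ℝ)) := by rw [hK1]; ring
  set K : ℝ := A * (K1 + K0) with hK
  have hKn : 0 ≤ K := by positivity
  set p : ℝ := n - α with hp
  have hp0 : 0 < p := by rw [hp]; linarith
  have hlim : Tendsto (fun R : ℝ => C * ENNReal.ofReal (K ^ 2 * 3 ^ (α + n) * R ^ (-p))) atTop (𝓝 0) := by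
    have h1 : Tendsto (fun r : ℝ => r ^ (-p)) atTop (𝓝 0) := tendsto_rpow_neg_atTop hp0
    have h2 := ENNReal.tendsto_ofReal (h1.const_mul (K ^ 2 * 3 ^ (α + n)))
    rw [mul_zero, ENNReal.ofReal_zero] at h2
    have h3 := ENNReal.Tendsto.const_mul (a := C) h2 (Or.inr hC)
    rwa [mul_zero] at h3
  obtain ⟨R, hR1, hR2⟩ := ((eventually_ge_atTop (4 * ρ)).and (hlim.eventually_lt_const hε)).exists
  have hR0 : 0 < R := by linarith
  set ψ : E n → ℝ := fun x => bmp n (R⁻¹ • x) * w x with hψ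
  have hψs : ContDiff ℝ ∞ ψ := ((bmp_smooth n).comp (contDiff_const_smul _)).mul hws
  have hz : ∀ x, 2 * R ≤ ‖x‖ → bmp n (R⁻¹ • x) = 0 := fun x hx => bmp_zero hR0 hx
  refine ⟨ψ, hψs, ?_, ?_⟩
  · refine HasCompactSupport.intro (isCompact_closedBall (0 : E n) (2 * R)) (fun x hx => ?_)
    rw [mem_closedBall_zero_iff, not_le] at hx
    rw [hψ]
    show bmp n (R⁻¹ • x) * w x = 0
    rw [hz x hx.le, zero_mul]
  · have hχh : ∀ x, bmp n (R⁻¹ • x) * (Δ w) x = h x := by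
      intro x
      rw [hwl]
      by_cases h0 : h x = 0
      · rw [h0, mul_zero]
      · rw [bmp_one hR0 (by linarith [hs x h0]), one_mul]
    -- vanishing for small and large `x`
    have hin : ∀ x, ‖x‖ < R → (Δ ψ) x - h x = 0 := by
      intro x hx
      have hev : ψ =ᶠ[𝓝 x] w := by
        have : {y : E n | ‖y‖ < R} ∈ 𝓝 x :=
          (isOpen_lt continuous_norm continuous_const).mem_nhds hx
        filter_upwards [this] with y hy
        show bmp n (R⁻¹ • y) * w y = w y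
        rw [bmp_one hR0 hy, one_mul]
      rw [(InnerProductSpace.laplacian_congr_nhds hev).eq_of_nhds, hwl, sub_self]
    have hout : ∀ x, x ∉ ball (0 : E n) (3 * R) → (Δ ψ) x - h x = 0 := by
      intro x hx
      rw [mem_ball_zero_iff, not_lt] at hx
      have h1 : (Δ ψ) x = 0 := by
        apply lap_zero_of_ev
        have : {y : E n | 2 * R < ‖y‖} ∈ 𝓝 x :=
          (isOpen_lt continuous_const continuous_norm).mem_nhds (by
            show 2 * R < ‖x‖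
            linarith)
        filter_upwards [this] with y hy
        show bmp n (R⁻¹ • y) * w y = 0
        rw [hz y (le_of_lt hy), zero_mul]
      have h2 : h x = 0 := by
        by_contra h0
        have := hs x h0
        linarith
      rw [h1, h2, sub_zero]
    have hbd : ∀ x, |(Δ ψ) x - h x| ≤ K * R ^ (-(n : ℝ)) := by
      intro x
      rcases lt_or_ge ‖x‖ R with hx | hx
      · rw [hin x hx, abs_zero]
        positivity
      · have h1 := hAM w hws R hR0 x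
        rw [hχh] at h1
        have hx4 : 4 * ρ ≤ ‖x‖ := by linarith
        have h2 := hwabs x hx4
        have h3 := hwfd x hx4
        have h4 : ‖x‖ ^ (2 - (n : ℝ)) ≤ R ^ (2 - (n : ℝ)) :=
          Real.rpow_le_rpow_of_nonpos hR0 hx (by linarith)
        have h5 : ‖x‖ ^ (1 - (n : ℝ)) ≤ R ^ (1 - (n : ℝ)) :=
          Real.rpow_le_rpow_of_nonpos hR0 hx (by linarith)
        have h6 : R⁻¹ * ‖fderiv ℝ w x‖ ≤ R⁻¹ * (K1 * R ^ (1 - (n : ℝ))) := by
          gcongr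
          exact h3.trans (by gcongr)
        have h7 : R⁻¹ ^ 2 * |w x| ≤ R⁻¹ ^ 2 * (K0 * R ^ (2 - (n : ℝ))) := by
          gcongr
          exact h2.trans (by gcongr)
        have e1 : R ^ (1 - (n : ℝ)) = R * R ^ (-(n : ℝ)) := by
          rw [sub_eq_add_neg, Real.rpow_add hR0, Real.rpow_one]
        have e2 : R ^ (2 - (n : ℝ)) = R ^ 2 * R ^ (-(n : ℝ)) := by
          rw [sub_eq_add_neg, Real.rpow_add hR0]
          norm_num
        rw [e1] at h6
        rw [e2] at h7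
        have h8 : R⁻¹ * (K1 * (R * R ^ (-(n : ℝ)))) + R⁻¹ ^ 2 * (K0 * (R ^ 2 * R ^ (-(n : ℝ)))) =
            (K1 + K0) * R ^ (-(n : ℝ)) := by
          field_simp
        calc |(Δ ψ) x - h x| ≤ A * (R⁻¹ * ‖fderiv ℝ w x‖ + R⁻¹ ^ 2 * |w x|) := h1
          _ ≤ A * ((K1 + K0) * R ^ (-(n : ℝ))) := by
              rw [← h8]
              gcongr
          _ = K * R ^ (-(n : ℝ)) := by rw [hK]; ring
    have hle : wI α 2 (fun x => (Δ ψ) x - h x) ≤
        ENNReal.ofReal ((K * R ^ (-(n : ℝ))) ^ 2) * ∫⁻ x in ball (0 : E n) (3 * R), ENNReal.ofReal (‖x‖ ^ α) := by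
      unfold wI
      rw [← lintegral_const_mul' _ _ ENNReal.ofReal_ne_top, ← lintegral_indicator measurableSet_ball]
      apply lintegral_mono
      intro x
      show ENNReal.ofReal (‖x‖ ^ α * |(Δ ψ) x - h x| ^ (2 : ℝ)) ≤ _
      by_cases hx : x ∈ ball (0 : E n) (3 * R)
      · rw [indicator_of_mem hx, ← ENNReal.ofReal_mul (by positivity)]
        apply ENNReal.ofReal_le_ofReal
        have h1 : |(Δ ψ) x - h x| ^ (2 : ℝ) = |(Δ ψ) x - h x| ^ 2 := by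
          rw [← Real.rpow_natCast]; norm_num
        rw [h1, mul_comm]
        have := hbd x
        gcongr
      · rw [hout x hx]
        simp
    refine hle.trans ?_
    have h3r : 0 < 3 * R := by positivity
    calc ENNReal.ofReal ((K * R ^ (-(n : ℝ))) ^ 2) *
          ∫⁻ x in ball (0 : E n) (3 * R), ENNReal.ofReal (‖x‖ ^ α)
        ≤ ENNReal.ofReal ((K * R ^ (-(n : ℝ))) ^ 2) * (C * ENNReal.ofReal ((3 * R) ^ (α + n))) := by
          gcongr
          exact hCB (3 * R) h3r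
      _ = C * (ENNReal.ofReal ((K * R ^ (-(n : ℝ))) ^ 2) * ENNReal.ofReal ((3 * R) ^ (α + n))) := by ring
      _ = C * ENNReal.ofReal (K ^ 2 * 3 ^ (α + n) * R ^ (-p)) := by
          rw [← ENNReal.ofReal_mul (by positivity)]
          congr 2
          have e3 : R ^ (-p) = R ^ (-(n : ℝ)) * R ^ (-(n : ℝ)) * R ^ (α + n) := by
            rw [← Real.rpow_add hR0, ← Real.rpow_add hR0]
            congr 1
            rw [hp]; ring
          rw [Real.mul_rpow (by norm_num) hR0.le, e3]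
          ring
      _ ≤ ε := hR2.le

end Pool.Agent.R995.CK
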