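import Pool.Agent.R995.CK.Stm
import Pool.Agent.Y767.PB.Pot

/-!
Project CK (MP_d4321b_an), piece SCHUR: the Schur test for the Newtonian potential with power
weights.
-/

set_option autoImplicit false

open MeasureTheory Set Filter Topology Metric
open scoped ContDiff Laplacian ENNReal

namespace Pool.Agent.R995.CK

namespace SCHUR

open Pool.Agent.Y767.PB (SS vol_ball' pot_w)

theorem SS_ne_top (k : ℕ) : SS k ≠ ⊤ := by
  have h := vol_ball' k (R := 1) zero_le_one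
  have h2 : volume (ball (0 : EuclideanSpace ℝ (Fin (k + 3))) 1) ≠ ⊤ := measure_ball_lt_top.ne
  intro hS
  rw [hS, ENNReal.top_mul] at h
  · exact h2 h
  · have : (0 : ℝ) < (1 : ℝ) ^ (k + 3) / (k + 3) := by positivity
    simpa [ENNReal.ofReal_eq_zero, not_le] using this

/-- the radial integral -/
theorem radial (k : ℕ) (s t : ℝ) (ht : 0 < t) (hs : 2 < s) (hs' : s < (k : ℝ) + 3) :
    ∫⁻ q in Ioi (0 : ℝ), ENNReal.ofReal (q ^ (k + 2)) *
        (ENNReal.ofReal ((max t q ^ (k + 1))⁻¹) * ENNReal.ofReal (q ^ (-s))) ≤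
      ENNReal.ofReal ((1 / ((k : ℝ) + 3 - s) + 1 / (s - 2)) * t ^ (2 - s)) := by
  have hn : 0 < (k : ℝ) + 3 - s := by linarith
  have hs2 : 0 < s - 2 := by linarith
  rw [← Ioc_union_Ioi_eq_Ioi ht.le]
  refine (lintegral_union_le _ _ _).trans ?_
  have htp : 0 ≤ t ^ (2 - s) := Real.rpow_nonneg ht.le _
  rw [add_mul, ENNReal.ofReal_add (by positivity) (by positivity)]
  apply add_le_add
  · -- small `q`
    have h1 : ∀ q ∈ Ioc 0 t, ENNReal.ofReal (q ^ (k + 2)) *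
        (ENNReal.ofReal ((max t q ^ (k + 1))⁻¹) * ENNReal.ofReal (q ^ (-s))) =
        ENNReal.ofReal ((t ^ (k + 1))⁻¹ * q ^ ((k : ℝ) + 2 - s)) := by
      intro q hq
      rw [max_eq_left hq.2, ← ENNReal.ofReal_mul (by positivity),
        ← ENNReal.ofReal_mul (pow_nonneg hq.1.le _)]
      congr 1
      have e : q ^ ((k : ℝ) + 2 - s) = q ^ (k + 2) * q ^ (-s) := by
        rw [show (k : ℝ) + 2 - s = ((k + 2 : ℕ) : ℝ) + (-s) by push_cast; ring,
          Real.rpow_add hq.1, Real.rpow_natCast]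
      rw [e]; ring
    rw [setLIntegral_congr_fun measurableSet_Ioc h1]
    have hi : IntegrableOn (fun q : ℝ => (t ^ (k + 1))⁻¹ * q ^ ((k : ℝ) + 2 - s)) (Ioc 0 t) := by
      have := (intervalIntegral.intervalIntegrable_rpow' (r := (k : ℝ) + 2 - s) (a := 0) (b := t)
        (by linarith)).const_mul ((t ^ (k + 1))⁻¹)
      rwa [intervalIntegrable_iff_integrableOn_Ioc_of_le ht.le] at this
    rw [← ofReal_integral_eq_lintegral_ofReal hi]
    · apply le_of_eq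
      congr 1
      rw [← intervalIntegral.integral_of_le ht.le, intervalIntegral.integral_const_mul,
        integral_rpow (Or.inl (by linarith))]
      have e1 : (k : ℝ) + 2 - s + 1 = (k : ℝ) + 3 - s := by ring
      rw [e1, Real.zero_rpow hn.ne', sub_zero]
      have e2 : t ^ ((k : ℝ) + 3 - s) = t ^ (k + 1) * t ^ (2 - s) := by
        rw [show (k : ℝ) + 3 - s = ((k + 1 : ℕ) : ℝ) + (2 - s) by push_cast; ring,
          Real.rpow_add ht, Real.rpow_natCast]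
      rw [e2]
      field_simp
    · filter_upwards [ae_restrict_mem measurableSet_Ioc] with q hq
      have := Real.rpow_nonneg hq.1.le ((k : ℝ) + 2 - s)
      have := pow_nonneg ht.le (k + 1)
      simp only [Pi.zero_apply]
      positivity
  · -- large `q`
    have h1 : ∀ q ∈ Ioi t, ENNReal.ofReal (q ^ (k + 2)) *
        (ENNReal.ofReal ((max t q ^ (k + 1))⁻¹) * ENNReal.ofReal (q ^ (-s))) =
        ENNReal.ofReal (q ^ (1 - s)) := by
      intro q hq
      have hq0 : 0 < q := ht.trans hq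
      rw [max_eq_right (le_of_lt hq), ← ENNReal.ofReal_mul (by positivity),
        ← ENNReal.ofReal_mul (pow_nonneg hq0.le _)]
      congr 1
      rw [show (1 : ℝ) - s = 1 + (-s) by ring, Real.rpow_add hq0, Real.rpow_one]
      field_simp
      ring
    rw [setLIntegral_congr_fun measurableSet_Ioi h1]
    have hi : IntegrableOn (fun q : ℝ => q ^ (1 - s)) (Ioi t) :=
      integrableOn_Ioi_rpow_of_lt (by linarith) ht
    rw [← ofReal_integral_eq_lintegral_ofReal hi]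
    · apply le_of_eq
      congr 1
      rw [integral_Ioi_rpow_of_lt (by linarith) ht]
      have e1 : (1 : ℝ) - s + 1 = 2 - s := by ring
      rw [e1]
      have e2 : (2 : ℝ) - s ≠ 0 := by linarith
      field_simp
      ring
    · filter_upwards [ae_restrict_mem measurableSet_Ioi] with q hq
      exact Real.rpow_nonneg (ht.trans hq).le _

/-- (1) -/
theorem pot_rpow (k : ℕ) (s : ℝ) (hs : 2 < s) (hs' : s < (k : ℝ) + 3) (x : E (k + 3))
    (hx : x ≠ 0) :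
    ∫⁻ y : E (k + 3), ENNReal.ofReal (‖x - y‖ ^ (2 - ((k + 3 : ℕ) : ℝ))) *
      ENNReal.ofReal (‖y‖ ^ (-s)) ≤
    SS k * ENNReal.ofReal ((1 / ((k : ℝ) + 3 - s) + 1 / (s - 2)) * ‖x‖ ^ (2 - s)) := by
  have hw : Measurable (fun q : ℝ => ENNReal.ofReal (q ^ (-s))) :=
    ENNReal.measurable_ofReal.comp (measurable_id.pow_const _)
  rw [pot_w k x (w := fun q : ℝ => ENNReal.ofReal (q ^ (-s))) hw]
  exact mul_le_mul_right (radial k s ‖x‖ (norm_pos_iff.2 hx) hs hs') _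

/-- Cauchy–Schwarz -/
theorem cs {X : Type} [MeasurableSpace X] (μ : Measure X) (a b : X → ℝ≥0∞) (ha : AEMeasurable a μ)
    (hb : AEMeasurable b μ) :
    (∫⁻ y, a y * b y ∂μ) ^ 2 ≤ (∫⁻ y, a y ^ 2 ∂μ) * ∫⁻ y, b y ^ 2 ∂μ := by
  have h := ENNReal.lintegral_mul_le_Lp_mul_Lq μ (p := 2) (q := 2)
    Real.HolderConjugate.two_two ha hb
  have h2 : (∫⁻ y, a y * b y ∂μ) ^ 2 ≤
      ((∫⁻ y, a y ^ (2 : ℝ) ∂μ) ^ (1 / (2 : ℝ)) * (∫⁻ y, b y ^ (2 : ℝ) ∂μ) ^ (1 / (2 : ℝ))) ^ 2 :=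
    pow_le_pow_left₀ bot_le h 2
  refine h2.trans (le_of_eq ?_)
  rw [mul_pow, ← ENNReal.rpow_natCast, ← ENNReal.rpow_natCast, ← ENNReal.rpow_mul,
    ← ENNReal.rpow_mul]
  norm_num

/-- (2) -/
theorem pot_sq (k : ℕ) (s : ℝ) (hs : 2 < s) (hs' : s < (k : ℝ) + 3) (x : E (k + 3))
    (hx : x ≠ 0) (h : E (k + 3) → ℝ≥0∞) (hh : Measurable h) :
    (∫⁻ y : E (k + 3), ENNReal.ofReal (‖x - y‖ ^ (2 - ((k + 3 : ℕ) : ℝ))) * h y) ^ 2 ≤
    (SS k * ENNReal.ofReal ((1 / ((k : ℝ) + 3 - s) + 1 / (s - 2)) * ‖x‖ ^ (2 - s))) *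
      ∫⁻ y : E (k + 3), ENNReal.ofReal (‖x - y‖ ^ (2 - ((k + 3 : ℕ) : ℝ))) *
        (ENNReal.ofReal (‖y‖ ^ s) * h y ^ 2) := by
  set m : ℝ := 2 - ((k + 3 : ℕ) : ℝ) with hm
  have hm0 : m ≠ 0 := by
    rw [hm]; push_cast
    have : (0 : ℝ) ≤ k := Nat.cast_nonneg k
    intro h0; linarith
  have hmm : m / 2 + m / 2 = m := by ring
  have hK : ∀ y : E (k + 3), ‖x - y‖ ^ (m / 2) * ‖x - y‖ ^ (m / 2) = ‖x - y‖ ^ m := by
    intro y
    rw [← Real.rpow_add' (norm_nonneg _) (by rw [hmm]; exact hm0), hmm]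
  set a : E (k + 3) → ℝ≥0∞ := fun y => ENNReal.ofReal (‖x - y‖ ^ (m / 2) * ‖y‖ ^ (-s / 2)) with ha
  set b : E (k + 3) → ℝ≥0∞ := fun y => ENNReal.ofReal (‖x - y‖ ^ (m / 2) * ‖y‖ ^ (s / 2)) * h y
    with hb
  have ha_meas : Measurable a := by
    apply ENNReal.measurable_ofReal.comp
    exact (Measurable.pow_const (by fun_prop) _).mul (Measurable.pow_const (by fun_prop) _)
  have hb_meas : Measurable b := by
    apply Measurable.mul _ hh
    apply ENNReal.measurable_ofReal.comp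
    exact (Measurable.pow_const (by fun_prop) _).mul (Measurable.pow_const (by fun_prop) _)
  have hcs := cs volume a b ha_meas.aemeasurable hb_meas.aemeasurable
  have e1 : ∫⁻ y, a y * b y = ∫⁻ y : E (k + 3), ENNReal.ofReal (‖x - y‖ ^ m) * h y := by
    have hae : ∀ᵐ y : E (k + 3), y ≠ 0 := by
      rw [ae_iff]; simp
    apply lintegral_congr_ae
    filter_upwards [hae] with y hy
    simp only [ha, hb]
    rw [← mul_assoc, ← ENNReal.ofReal_mul (by positivity)]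
    congr 2
    have hy0 : 0 < ‖y‖ := norm_pos_iff.2 hy
    have e : ‖y‖ ^ (-s / 2) * ‖y‖ ^ (s / 2) = 1 := by
      rw [← Real.rpow_add hy0]
      ring_nf
      exact Real.rpow_zero _
    calc ‖x - y‖ ^ (m / 2) * ‖y‖ ^ (-s / 2) * (‖x - y‖ ^ (m / 2) * ‖y‖ ^ (s / 2))
        = (‖x - y‖ ^ (m / 2) * ‖x - y‖ ^ (m / 2)) * (‖y‖ ^ (-s / 2) * ‖y‖ ^ (s / 2)) := by ring
      _ = ‖x - y‖ ^ m := by rw [hK, e, mul_one]
  have e2 : ∫⁻ y, a y ^ 2 = ∫⁻ y : E (k + 3), ENNReal.ofReal (‖x - y‖ ^ m) *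
      ENNReal.ofReal (‖y‖ ^ (-s)) := by
    apply lintegral_congr
    intro y
    simp only [ha]
    rw [sq, ← ENNReal.ofReal_mul (by positivity), ← ENNReal.ofReal_mul (by positivity)]
    congr 1
    have e : ‖y‖ ^ (-s / 2) * ‖y‖ ^ (-s / 2) = ‖y‖ ^ (-s) := by
      rw [← Real.rpow_add' (norm_nonneg _) (by intro h0; linarith)]
      congr 1; ring
    calc ‖x - y‖ ^ (m / 2) * ‖y‖ ^ (-s / 2) * (‖x - y‖ ^ (m / 2) * ‖y‖ ^ (-s / 2))
        = (‖x - y‖ ^ (m / 2) * ‖x - y‖ ^ (m / 2)) * (‖y‖ ^ (-s / 2) * ‖y‖ ^ (-s / 2)) := by ring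
      _ = ‖x - y‖ ^ m * ‖y‖ ^ (-s) := by rw [hK, e]
  have e3 : ∫⁻ y, b y ^ 2 = ∫⁻ y : E (k + 3), ENNReal.ofReal (‖x - y‖ ^ m) *
      (ENNReal.ofReal (‖y‖ ^ s) * h y ^ 2) := by
    apply lintegral_congr
    intro y
    simp only [hb]
    rw [mul_pow, ← mul_assoc]
    congr 1
    rw [sq, ← ENNReal.ofReal_mul (by positivity), ← ENNReal.ofReal_mul (by positivity)]
    congr 1
    have e : ‖y‖ ^ (s / 2) * ‖y‖ ^ (s / 2) = ‖y‖ ^ s := by
      rw [← Real.rpow_add' (norm_nonneg _) (by intro h0; linarith)]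
      congr 1; ring
    calc ‖x - y‖ ^ (m / 2) * ‖y‖ ^ (s / 2) * (‖x - y‖ ^ (m / 2) * ‖y‖ ^ (s / 2))
        = (‖x - y‖ ^ (m / 2) * ‖x - y‖ ^ (m / 2)) * (‖y‖ ^ (s / 2) * ‖y‖ ^ (s / 2)) := by ring
      _ = ‖x - y‖ ^ m * ‖y‖ ^ s := by rw [hK, e]
  rw [e1, e2, e3] at hcs
  refine hcs.trans ?_
  exact mul_le_mul_left (pot_rpow k s hs hs' x hx) _

end SCHUR

open SCHUR Pool.Agent.Y767.PB in
theorem t_SCHUR : S_SCHUR := by
  intro n α hn hα1 hα2
  obtain ⟨k, rfl⟩ : ∃ k, n = k + 3 := ⟨n - 3, by omega⟩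
  have hn3 : ((k + 3 : ℕ) : ℝ) = (k : ℝ) + 3 := by push_cast; ring
  rw [hn3] at hα1 hα2
  set s : ℝ := (α + ((k : ℝ) + 3)) / 2 with hs
  set s' : ℝ := s + 2 - α with hs'
  have h1 : 2 < s := by rw [hs]; linarith
  have h2 : s < (k : ℝ) + 3 := by rw [hs]; linarith
  have h3 : 2 < s' := by rw [hs', hs]; linarith
  have h4 : s' < (k : ℝ) + 3 := by rw [hs', hs]; linarith
  set c₁ : ℝ := 1 / ((k : ℝ) + 3 - s) + 1 / (s - 2) with hc₁
  set c₂ : ℝ := 1 / ((k : ℝ) + 3 - s') + 1 / (s' - 2) with hc₂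
  have hc₁0 : 0 ≤ c₁ := by
    have : 0 < (k : ℝ) + 3 - s := by linarith
    have : 0 < s - 2 := by linarith
    positivity
  have hc₂0 : 0 ≤ c₂ := by
    have : 0 < (k : ℝ) + 3 - s' := by linarith
    have : 0 < s' - 2 := by linarith
    positivity
  refine ⟨SS k * ENNReal.ofReal c₁ * (SS k * ENNReal.ofReal c₂),
    ENNReal.mul_ne_top (ENNReal.mul_ne_top (SS_ne_top k) ENNReal.ofReal_ne_top)
      (ENNReal.mul_ne_top (SS_ne_top k) ENNReal.ofReal_ne_top), ?_⟩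
  intro h hh
  have hae : ∀ᵐ x : E (k + 3), x ≠ 0 := by
    rw [ae_iff]; simp
  set m : ℝ := 2 - ((k + 3 : ℕ) : ℝ) with hm
  have hmn : ∀ r : ℝ, Measurable fun x : E (k + 3) => ENNReal.ofReal (‖x‖ ^ r) := fun r =>
    ENNReal.measurable_ofReal.comp (Measurable.pow_const (by fun_prop) _)
  have hK : Measurable fun p : E (k + 3) × E (k + 3) => ENNReal.ofReal (‖p.1 - p.2‖ ^ m) :=
    ENNReal.measurable_ofReal.comp (Measurable.pow_const (by fun_prop) _)
  calc ∫⁻ x : E (k + 3), ENNReal.ofReal (‖x‖ ^ (α - 4)) *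
      (∫⁻ y : E (k + 3), ENNReal.ofReal (‖x - y‖ ^ m) * h y) ^ 2
      ≤ ∫⁻ x : E (k + 3), SS k * ENNReal.ofReal c₁ * ∫⁻ y : E (k + 3),
          ENNReal.ofReal (‖x‖ ^ (-s')) * (ENNReal.ofReal (‖x - y‖ ^ m) *
            (ENNReal.ofReal (‖y‖ ^ s) * h y ^ 2)) := by
        apply lintegral_mono_ae
        filter_upwards [hae] with x hx
        have hx0 : 0 < ‖x‖ := norm_pos_iff.2 hx
        refine (mul_le_mul_right (pot_sq k s h1 h2 x hx h hh) _).trans (le_of_eq ?_)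
        rw [lintegral_const_mul' _ _ ENNReal.ofReal_ne_top, ENNReal.ofReal_mul hc₁0]
        have e : ENNReal.ofReal (‖x‖ ^ (-s')) =
            ENNReal.ofReal (‖x‖ ^ (α - 4)) * ENNReal.ofReal (‖x‖ ^ (2 - s)) := by
          rw [← ENNReal.ofReal_mul (by positivity), ← Real.rpow_add hx0]
          congr 2
          rw [hs']; ring
        rw [e]
        ring
    _ = SS k * ENNReal.ofReal c₁ * ∫⁻ x : E (k + 3), ∫⁻ y : E (k + 3),
          ENNReal.ofReal (‖x‖ ^ (-s')) * (ENNReal.ofReal (‖x - y‖ ^ m) *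
            (ENNReal.ofReal (‖y‖ ^ s) * h y ^ 2)) := by
        rw [lintegral_const_mul' _ _ (ENNReal.mul_ne_top (SS_ne_top k) ENNReal.ofReal_ne_top)]
    _ = SS k * ENNReal.ofReal c₁ * ∫⁻ y : E (k + 3), ∫⁻ x : E (k + 3),
          ENNReal.ofReal (‖x‖ ^ (-s')) * (ENNReal.ofReal (‖x - y‖ ^ m) *
            (ENNReal.ofReal (‖y‖ ^ s) * h y ^ 2)) := by
        rw [lintegral_lintegral_swap]
        apply Measurable.aemeasurable
        exact ((hmn _).comp measurable_fst).mul (hK.mul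
          (((hmn _).comp measurable_snd).mul ((hh.comp measurable_snd).pow_const 2)))
    _ ≤ SS k * ENNReal.ofReal c₁ * ∫⁻ y : E (k + 3), (SS k * ENNReal.ofReal c₂) *
          (ENNReal.ofReal (‖y‖ ^ α) * h y ^ 2) := by
        apply mul_le_mul_right
        apply lintegral_mono_ae
        filter_upwards [hae] with y hy
        have hy0 : 0 < ‖y‖ := norm_pos_iff.2 hy
        have e : ∀ x : E (k + 3), ENNReal.ofReal (‖x‖ ^ (-s')) * (ENNReal.ofReal (‖x - y‖ ^ m) *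
            (ENNReal.ofReal (‖y‖ ^ s) * h y ^ 2)) = (ENNReal.ofReal (‖y - x‖ ^ m) *
              ENNReal.ofReal (‖x‖ ^ (-s'))) * (ENNReal.ofReal (‖y‖ ^ s) * h y ^ 2) := by
          intro x
          rw [norm_sub_rev x y]
          ring
        simp_rw [e]
        rw [lintegral_mul_const]
        · refine (mul_le_mul_left (pot_rpow k s' h3 h4 y hy) _).trans (le_of_eq ?_)
          rw [ENNReal.ofReal_mul hc₂0]
          have e5 : ENNReal.ofReal (‖y‖ ^ α) =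
              ENNReal.ofReal (‖y‖ ^ (2 - s')) * ENNReal.ofReal (‖y‖ ^ s) := by
            rw [← ENNReal.ofReal_mul (by positivity), ← Real.rpow_add hy0]
            congr 2
            rw [hs']; ring
          rw [e5]
          ring
        · apply Measurable.mul _ (hmn _)
          exact ENNReal.measurable_ofReal.comp (Measurable.pow_const (by fun_prop) _)
    _ = SS k * ENNReal.ofReal c₁ * (SS k * ENNReal.ofReal c₂) *
          ∫⁻ y : E (k + 3), ENNReal.ofReal (‖y‖ ^ α) * h y ^ 2 := by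
        rw [lintegral_const_mul' _ _ (ENNReal.mul_ne_top (SS_ne_top k) ENNReal.ofReal_ne_top),
          mul_assoc (SS k * ENNReal.ofReal c₁)]

end Pool.Agent.R995.CK
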