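import Mathlib

/-!
# Positivity of extremals of the weighted biharmonic CKN quotient (MP_d4321b_an, Q1). Statements
-/

set_option autoImplicit false

open MeasureTheory Set Filter Topology Metric
open scoped ContDiff Laplacian ENNReal

namespace Pool.Agent.R995.CK

abbrev E (n : ℕ) : Type := EuclideanSpace ℝ (Fin n)

/-- The weighted integral `∫ |x|^a |f|^q dx` (with values in `[0, ∞]`). -/
noncomputable def wI {n : ℕ} (a q : ℝ) (f : E n → ℝ) : ℝ≥0∞ :=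
  ∫⁻ x, ENNReal.ofReal (‖x‖ ^ a * |f x| ^ q)

/-- `C²` functions with compact support in `ℝⁿ \ {0}`. -/
structure Test {n : ℕ} (φ : E n → ℝ) : Prop where
  smooth : ContDiff ℝ 2 φ
  cpt : HasCompactSupport φ
  away : (0 : E n) ∉ tsupport φ

/-- BALL: powers near the origin. -/
def S_BALL : Prop := ∀ (n : ℕ) (a : ℝ), 3 ≤ n → 0 < a + n → ∃ C : ℝ≥0∞, C ≠ ⊤ ∧ ∀ r : ℝ, 0 < r →
  ∫⁻ x in ball (0 : E n) r, ENNReal.ofReal (‖x‖ ^ a) ≤ C * ENNReal.ofReal (r ^ (a + n))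

/-- SCHUR: the Newtonian potential is bounded from `L²(|x|^α)` to `L²(|x|^(α-4))`. -/
def S_SCHUR : Prop := ∀ (n : ℕ) (α : ℝ), 3 ≤ n → 4 - (n : ℝ) < α → α < n →
  ∃ C : ℝ≥0∞, C ≠ ⊤ ∧ ∀ h : E n → ℝ≥0∞, Measurable h →
    ∫⁻ x : E n, ENNReal.ofReal (‖x‖ ^ (α - 4)) *
      (∫⁻ y : E n, ENNReal.ofReal (‖x - y‖ ^ (2 - (n : ℝ))) * h y) ^ 2 ≤
    C * ∫⁻ y : E n, ENNReal.ofReal (‖y‖ ^ α) * h y ^ 2

/-- GREEN: Green's representation for `C²` functions, and the Poisson equation. -/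
def S_GREEN : Prop := ∀ n : ℕ, 3 ≤ n → ∃ c : ℝ, 0 < c ∧
  (∀ φ : E n → ℝ, ContDiff ℝ 2 φ → HasCompactSupport φ → ∀ a : E n,
    ∫ y : E n, ‖a - y‖ ^ (2 - (n : ℝ)) * (Δ φ) y = -c * φ a) ∧
  (∀ h : E n → ℝ, ContDiff ℝ ∞ h → HasCompactSupport h →
    ContDiff ℝ ∞ (fun x : E n => ∫ y : E n, ‖x - y‖ ^ (2 - (n : ℝ)) * h y) ∧
    ∀ x : E n, (Δ (fun x : E n => ∫ y : E n, ‖x - y‖ ^ (2 - (n : ℝ)) * h y)) x = -c * h x)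

/-- OUT: cutting off the potential at infinity. -/
def S_OUT : Prop := ∀ (n : ℕ) (α : ℝ), 3 ≤ n → 4 - (n : ℝ) < α → α < n →
  ∀ h : E n → ℝ, ContDiff ℝ ∞ h → HasCompactSupport h → ∀ ε : ℝ≥0∞, 0 < ε →
  ∃ ψ : E n → ℝ, ContDiff ℝ ∞ ψ ∧ HasCompactSupport ψ ∧ wI α 2 (fun x => (Δ ψ) x - h x) ≤ ε

/-- INN: cutting off a smooth function near the origin. -/
def S_INN : Prop := ∀ (n : ℕ) (α : ℝ), 3 ≤ n → 4 - (n : ℝ) < α → α < n →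
  ∀ ψ : E n → ℝ, ContDiff ℝ ∞ ψ → HasCompactSupport ψ → ∀ ε : ℝ≥0∞, 0 < ε →
  ∃ φ : E n → ℝ, Test φ ∧ wI α 2 (fun x => (Δ φ) x - (Δ ψ) x) ≤ ε

/-- MULT: bound for the Laplacian of a product with a rescaled fixed bump function. -/
def S_MULT : Prop := ∀ (n : ℕ) (χ : E n → ℝ), ContDiff ℝ ∞ χ → HasCompactSupport χ →
  ∃ A : ℝ, 0 ≤ A ∧ ∀ (w : E n → ℝ), ContDiff ℝ ∞ w → ∀ (R : ℝ), 0 < R → ∀ x : E n,
    |(Δ (fun y => χ (R⁻¹ • y) * w y)) x - χ (R⁻¹ • x) * (Δ w) x| ≤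
      A * (R⁻¹ * ‖fderiv ℝ w x‖ + R⁻¹ ^ 2 * |w x|)

end Pool.Agent.R995.CK
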